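import Pool.Agent.R936.UniGeo
import Pool.Agent.R940.Main

/-!
# Open subvarieties over finite fields
-/

open CategoryTheory AlgebraicGeometry Finset Filter Topology

universe u v w

namespace Pool.Agent.R936

open Pool.Agent.H914 Pool.Agent.W534 VarClass Obj WeilCohomology Pool.Agent.H281R3.HT

/-- An element which is an eigenvector modulo eigenvectors of a power. -/
lemma two_step {K V : Type*} [Field K] [AddCommGroup V] [Module K V] (f : Module.End K V) (l : K)
    (t : ℕ) {c : V} (h : (f ^ t) (f c - l • c) = l ^ t • (f c - l • c)) :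
    c ∈ (f ^ t : Module.End K V).maxGenEigenspace (l ^ t) := by
  have hcomm : Commute f (algebraMap K (Module.End K V) l) := (Algebra.commutes l f).symm
  set Q : Module.End K V :=
    ∑ i ∈ range t, f ^ i * (algebraMap K (Module.End K V) l) ^ (t - 1 - i) with hQ
  have h1 : f ^ t - algebraMap K _ (l ^ t) = Q * (f - algebraMap K _ l) := by
    rw [map_pow]
    exact (hcomm.geom_sum₂_mul t).symm
  have h2 : Commute Q (f ^ t - algebraMap K _ (l ^ t)) := by
    apply Commute.sub_right
    · rw [hQ]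
      refine Commute.sum_left _ _ _ fun i _ => Commute.mul_left ?_ ?_
      · exact (Commute.refl f).pow_pow i t
      · exact (hcomm.symm.pow_left _).pow_right t
    · exact (Algebra.commutes (l ^ t) Q).symm
  rw [Module.End.mem_maxGenEigenspace]
  refine ⟨2, ?_⟩
  have h3 : (f ^ t - (l ^ t) • (1 : Module.End K V)) = f ^ t - algebraMap K _ (l ^ t) := by
    rw [Algebra.algebraMap_eq_smul_one]
  rw [h3, pow_two, Module.End.mul_apply]
  have h4 : (f ^ t - algebraMap K (Module.End K V) (l ^ t)) c = Q (f c - l • c) := by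
    rw [h1, Module.End.mul_apply, LinearMap.sub_apply, Module.algebraMap_end_apply]
  rw [h4, ← Module.End.mul_apply, h2.symm.eq, Module.End.mul_apply, LinearMap.sub_apply, h,
    Module.algebraMap_end_apply, sub_self, map_zero]

variable {k : Type u} [Field k] {𝒱 : VarClass k} {ops : CycleOps 𝒱}
  {W : WeilCohomology.{u, v} ops} {X Y Z : 𝒱.Obj} {p : ℕ} {Φ : FrobSystem W p}

/-- The Tate conjecture in codimension `j`, over all finite extensions of the ground field, for the
open subvariety `U` of `Y`, whose complement has codimension at least `j`: if the restriction to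
`U` of the class `c` in `H^(2 j)(Y)` is multiplied by `q ^ j` by the Frobenius endomorphism relative to
a finite field with `q` elements, then `c` is a linear combination of classes of algebraic cycles. -/
def FTateOpen (Φ : FrobSystem W p) (Y : 𝒱.Obj) (j : ℕ) (U : Y.V.X.Opens) : Prop :=
  ∀ c ∈ W.gr Y (2 * j), (∃ s, 0 < s ∧
    W.map (W534.iter (Φ.Fr Y) s) c - (W534.card Φ Y s : W.K) ^ j • c ∈
      Submodule.span W.K (removedClasses W Y j U)) → c ∈ spanCycles W Y j

lemma removed_le (j : ℕ) (U : Y.V.X.Opens) :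
    Submodule.span W.K (removedClasses W Y j U) ≤ spanCycles W Y j := by
  rw [spanCycles_eq]
  exact Submodule.span_mono (removed_sub j U)

/-- The Tate conjecture for one suitable open subvariety implies the Tate conjecture for the
generalised Tate classes. -/
lemma semisimple_of_open {j : ℕ} {U : Y.V.X.Opens}
    (hU : Submodule.span W.K (removedClasses W Y j U) = Submodule.span W.K (algClasses W Y j))
    (h : FTateOpen Φ Y j U) : SemisimpleTateIn Φ Y j := by
  intro s hs c hc
  obtain ⟨⟨n, hn⟩, hcj⟩ := (mem_genTate Φ).1 hc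
  clear hc
  induction n generalizing c with
  | zero =>
    rw [pow_zero, Module.End.one_apply] at hn
    rw [hn]
    exact zero_mem _
  | succ n ih =>
    refine h c hcj ⟨s, hs, ?_⟩
    rw [hU, ← spanCycles_eq]
    have e1 : (frob Φ Y s - ((W534.card Φ Y s : W.K) ^ j) • (1 : Module.End W.K (W.H Y))) c =
        W.map (W534.iter (Φ.Fr Y) s) c - (W534.card Φ Y s : W.K) ^ j • c := rfl
    have h1 : W.map (W534.iter (Φ.Fr Y) s) c - (W534.card Φ Y s : W.K) ^ j • c ∈
        W.gr Y (2 * j) := Submodule.sub_mem _ (W.map_mem _ hcj) (Submodule.smul_mem _ _ hcj)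
    have h2 : ((frob Φ Y s - ((W534.card Φ Y s : W.K) ^ j) • (1 : Module.End W.K (W.H Y))) ^ n)
        (W.map (W534.iter (Φ.Fr Y) s) c - (W534.card Φ Y s : W.K) ^ j • c) = 0 := by
      rw [← e1, ← Module.End.mul_apply, ← pow_succ]
      exact hn
    exact ih h1 h2

lemma open_of_semisimple {j : ℕ} (h : SemisimpleTateIn Φ Y j) (U : Y.V.X.Opens) :
    FTateOpen Φ Y j U := by
  rintro c hc ⟨s, hs, hd⟩
  have hd' := removed_le j U hd
  obtain ⟨t, ht, h1⟩ := exists_span_eig Φ Y j
  have h2 := span_eig_mul' Φ (h1 _ hd') s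
  rw [frob_mul_eq, W534.card_mul_eq, Nat.cast_pow, pow_right_comm] at h2
  refine h (s * t) (Nat.mul_pos hs ht) ⟨?_, hc⟩
  change c ∈ (frob Φ Y (s * t)).maxGenEigenspace _
  rw [frob_mul_eq, W534.card_mul_eq, Nat.cast_pow, pow_right_comm]
  exact two_step _ _ _ h2

/-- **One open subvariety decides.** -/
theorem exists_deciding_open (Φ : FrobSystem W p) (Y : 𝒱.Obj) (j : ℕ) :
    ∃ U : Y.V.X.Opens, SmallComplement Y j U ∧
      (FTateOpen Φ Y j U ↔ SemisimpleTateIn Φ Y j) ∧
      (FTateOpen Φ Y j U → ∀ V, FTateOpen Φ Y j V) := by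
  obtain ⟨U, hU, hU'⟩ := exists_open W Y j
  exact ⟨U, hU, ⟨semisimple_of_open hU', fun h => open_of_semisimple h U⟩,
    fun h V => open_of_semisimple (semisimple_of_open hU' h) V⟩

/-- **One open subvariety decides.** -/
theorem deciding_iff (Φ : FrobSystem W p) (Y : 𝒱.Obj) (j : ℕ) :
    (∀ V : Y.V.X.Opens, SmallComplement Y j V → FTateOpen Φ Y j V) ↔ SemisimpleTateIn Φ Y j := by
  obtain ⟨U, hU, h1, _⟩ := exists_deciding_open Φ Y j
  exact ⟨fun h => h1.1 (h U hU), fun h V _ => open_of_semisimple h V⟩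

section Powers

universe v'

open Pool.Agent.Y163 Pool.Agent.R940

/-- The zeta functions of the models of all powers of `X`, defined by the two cohomology theories,
agree. -/
def SameZeta (Φ : FrobSystem W p) (σ : W.K →+* ℂ) {W' : WeilCohomology.{u, v'} ops}
    (Φ' : FrobSystem W' p) (σ' : W'.K →+* ℂ) (X : 𝒱.Obj) : Prop :=
  ∀ n s, 0 < s → zetaFn Φ' σ' (pw X n) s = zetaFn Φ σ (pw X n) s

lemma SameZeta.pole {Φ : FrobSystem W p} {σ : W.K →+* ℂ} {W' : WeilCohomology.{u, v'} ops}
    {Φ' : FrobSystem W' p} {σ' : W'.K →+* ℂ} {X : 𝒱.Obj} (h : SameZeta Φ σ Φ' σ' X) {n j : ℕ}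
    (hj : PoleFormula Φ σ (pw X n) j) : PoleFormula Φ' σ' (pw X n) j := by
  obtain ⟨t, ht, h1⟩ := hj
  refine ⟨t, ht, fun s hs hts => ?_⟩
  rw [h n s hs]
  exact h1 s hs hts

variable [hp : Fact p.Prime] {σ : W.K →+* ℂ}

/-- **Finitely many open subvarieties of one power decide.** -/
theorem opens_of_power [IsAlgClosed W.K] (hRH : ∀ Z, RiemannHyp Φ σ Z) (X : 𝒱.Obj)
    (hint : HasIntegralPolys Φ σ X) {E : X.Cycles} (hE : X.IsCyc 1 E) (hbig : Big ops X E) {D : ℕ}
    (hD : IsSlopeDenominator Φ σ X D) :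
    ∃ U : ∀ _ : ℕ, (pw X (powerBound (Module.finrank W.K (W.H X)) D - 1)).V.X.Opens,
      (∀ j, SmallComplement _ j (U j)) ∧
      ((∀ j, FTateOpen Φ _ j (U j)) ↔ ∀ n j, j ≤ (pw X n).dim → PoleFormula Φ σ (pw X n) j) ∧
      ((∀ j, FTateOpen Φ _ j (U j)) →
        ∀ (W' : WeilCohomology.{u, v'} ops) (Φ' : FrobSystem W' p) (σ' : W'.K →+* ℂ),
          SameZeta Φ σ Φ' σ' X → (∀ Z, RiemannHyp Φ' σ' Z) →
          ∀ n j (V : (pw X n).V.X.Opens), SmallComplement _ j V → FTateOpen Φ' _ j V) := by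
  choose U hU1 hU2 _ using fun j => exists_deciding_open Φ
    (pw X (powerBound (Module.finrank W.K (W.H X)) D - 1)) j
  have key : (∀ j, FTateOpen Φ _ j (U j)) ↔
      ∀ n j, j ≤ (pw X n).dim → PoleFormula Φ σ (pw X n) j := by
    rw [forall_congr' fun j => hU2 j]
    constructor
    · intro h
      exact all_powers hRH hint hE (hbig.tr hE) hD fun j hj => pole_of_semisimple (hRH _) h hj
    · intro h
      exact semisimple_of_poles (hRH _) (h _)
  refine ⟨U, hU1, key, fun h W' Φ' σ' hz hRH' n j V _ => ?_⟩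
  exact open_of_semisimple (semisimple_of_poles (hRH' _)
    (fun j hj => hz.pole (key.1 h n j hj)) j) V

end Powers

end Pool.Agent.R936
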