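import Pool.Agent.R936.Uni

/-!
# Unipotent classes and open subvarieties: geometry
-/

open CategoryTheory AlgebraicGeometry Finset Filter Topology

open scoped ENNReal

universe u v w

namespace Pool.Agent.R936

open Pool.Agent.H914 Pool.Agent.H914.VarClass Pool.Agent.H914.VarClass.Obj
  Pool.Agent.H914.WeilCohomology Pool.Agent.H281R3.HT Pool.Agent.TH125.Gal Pool.Agent.Y129

variable {k : Type u} [Field k] {𝒱 : VarClass k} {ops : CycleOps 𝒱}
  {W : WeilCohomology.{u, v} ops} {X Y : 𝒱.Obj}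

lemma coeff_pt {x y : Y.V.X} (h : Y.V.coeff (pt Y x) y ≠ 0) : y = x := by
  by_contra hne
  apply h
  exact Finsupp.single_eq_of_ne (M := ℚ) (α := Y.V.X) hne

lemma isCyc_pt {x : Y.V.X} {j : ℕ} (h : Order.coheight x = j) : Y.IsCyc j (pt Y x) := by
  intro y hy
  rw [coeff_pt hy]
  exact h

lemma removed_sub (j : ℕ) (U : Y.V.X.Opens) : removedClasses W Y j U ⊆ algClasses W Y j := by
  rintro c ⟨x, _, hj, rfl⟩
  exact ⟨pt Y x, isCyc_pt hj, rfl⟩

/-- The class of a cycle is a combination of the classes of the points of its support. -/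
lemma cl_mem_of_support {M : Submodule W.K (W.H Y)} (z : Y.Cycles)
    (h : ∀ x, Y.V.coeff z x ≠ 0 → W.cl Y (pt Y x) ∈ M) : W.cl Y z ∈ M := by
  classical
  have key : ∀ z : Y.V.X →₀ ℚ, (∀ x, z x ≠ 0 → W.cl Y (pt Y x) ∈ M) → W.cl Y z ∈ M := by
    intro z hz
    have h1 : z = ∑ x ∈ z.support, Finsupp.single x (z x) := (Finsupp.sum_single z).symm
    have h2 : W.cl Y z = ∑ x ∈ z.support, W.cl Y (Finsupp.single x (z x) : Y.V.X →₀ ℚ) := by
      conv_lhs => rw [h1]
      exact map_sum (W.cl Y) _ _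
    rw [h2]
    refine Submodule.sum_mem _ fun x hx => ?_
    have h3 : (Finsupp.single x (z x) : Y.V.X →₀ ℚ) = ((z x) • pt Y x : Y.Cycles) := by
      have h4 : (z x) • (Finsupp.single x (1 : ℚ) : Y.V.X →₀ ℚ) = Finsupp.single x (z x) := by
        rw [Finsupp.smul_single, smul_eq_mul, mul_one]
      exact h4.symm
    rw [h3, W.cl_smul]
    exact Submodule.smul_mem _ _ (hz x (Finsupp.mem_support_iff.1 hx))
  exact key z h

/-- The open complement of the closure of a finite set of points. -/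
noncomputable def complOf (Y : 𝒱.Obj) (P : Finset Y.V.X) : Y.V.X.Opens :=
  ⟨(⋃ y ∈ P, closure {y})ᶜ, (isClosed_biUnion_finset fun _ _ => isClosed_closure).isOpen_compl⟩

lemma mem_complOf {P : Finset Y.V.X} {x : Y.V.X} : x ∉ complOf Y P ↔ ∃ y ∈ P, y ⤳ x := by
  have h1 : x ∈ complOf Y P ↔ x ∈ (⋃ y ∈ P, closure {y})ᶜ := Iff.rfl
  rw [h1, Set.notMem_compl_iff, Set.mem_iUnion₂]
  constructor
  · rintro ⟨y, hy, hx⟩
    exact ⟨y, hy, specializes_iff_mem_closure.2 hx⟩
  · rintro ⟨y, hy, hx⟩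
    exact ⟨y, hy, specializes_iff_mem_closure.1 hx⟩

lemma small_complOf {P : Finset Y.V.X} {j : ℕ} (hP : ∀ y ∈ P, Order.coheight y = j) :
    SmallComplement Y j (complOf Y P) := by
  intro x hx
  obtain ⟨y, hy, h⟩ := mem_complOf.1 hx
  have h1 : x ≤ y := h
  rw [← hP y hy]
  exact Order.coheight_anti h1

/-- For each `j` there is an open subvariety such that the classes of the components of its
complement span the algebraic classes of codimension `j`. -/
lemma exists_open (W : WeilCohomology.{u, v} ops) (Y : 𝒱.Obj) (j : ℕ) :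
    ∃ U : Y.V.X.Opens, SmallComplement Y j U ∧
      Submodule.span W.K (removedClasses W Y j U) = Submodule.span W.K (algClasses W Y j) := by
  classical
  obtain ⟨b, hb, hspan, hli⟩ := exists_linearIndependent W.K (algClasses W Y j)
  have hfin : b.Finite := hli.setFinite
  have hcyc : ∀ c : W.H Y, ∃ z : Y.Cycles, c ∈ b → Y.IsCyc j z ∧ W.cl Y z = c := by
    intro c
    by_cases hc : c ∈ b
    · obtain ⟨z, hz, rfl⟩ := hb hc
      exact ⟨z, fun _ => ⟨hz, rfl⟩⟩
    · exact ⟨0, fun h => absurd h hc⟩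
  choose z hz using hcyc
  let P : Finset Y.V.X := hfin.toFinset.biUnion fun c => (z c : Y.V.X →₀ ℚ).support
  have hP : ∀ y ∈ P, Order.coheight y = j := by
    intro y hy
    obtain ⟨c, hc, hy⟩ := Finset.mem_biUnion.1 hy
    exact (hz c (hfin.mem_toFinset.1 hc)).1 y (Finsupp.mem_support_iff.1 hy)
  refine ⟨complOf Y P, small_complOf hP, le_antisymm ?_ ?_⟩
  · exact Submodule.span_mono (removed_sub j _)
  · rw [← hspan, Submodule.span_le]
    intro c hc
    rw [← (hz c hc).2]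
    refine cl_mem_of_support (z c) fun x hx => ?_
    have hxP : x ∈ P := Finset.mem_biUnion.2 ⟨c, hfin.mem_toFinset.2 hc,
      Finsupp.mem_support_iff.2 hx⟩
    exact Submodule.subset_span ⟨x, mem_complOf.2 ⟨x, hxP, specializes_rfl⟩, hP x hxP, rfl⟩

section Act

variable {Γ : Type w} [Group Γ] {χ : Γ →* W.Kˣ} {ρ : Γ →* (W.H Y ≃ₐ[W.K] W.H Y)}

lemma span_fix (h : IsGaloisAct χ (W.gr Y) Y.dim (W.tr Y) (algClasses W Y) ρ) {j : ℕ} {c : W.H Y}
    (hc : c ∈ Submodule.span W.K (algClasses W Y j)) :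
    ∃ Δ : Subgroup Γ, Δ.FiniteIndex ∧ ∀ g ∈ Δ, ρ g c = (χ g : W.K) ^ j • c := by
  induction hc using Submodule.span_induction with
  | mem c hc => exact h.cl_fix j c hc
  | zero => exact ⟨⊤, inferInstance, fun g _ => by rw [map_zero, smul_zero]⟩
  | add a b _ _ ha hb =>
    obtain ⟨Δ, _, h1⟩ := ha
    obtain ⟨Δ', _, h2⟩ := hb
    exact ⟨Δ ⊓ Δ', inferInstance, fun g hg => by rw [map_add, h1 g hg.1, h2 g hg.2, smul_add]⟩
  | smul r a _ ha =>
    obtain ⟨Δ, hΔ, h1⟩ := ha
    exact ⟨Δ, hΔ, fun g hg => by rw [map_smul, h1 g hg, smul_comm]⟩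

lemma span_alg_gr {j : ℕ} : Submodule.span W.K (algClasses W Y j) ≤ W.gr Y (2 * j) := by
  rw [Submodule.span_le]
  rintro c ⟨z, hz, rfl⟩
  exact W.cl_mem hz

/-- All unipotent classes are algebraic. -/
def UniAlg (W : WeilCohomology.{u, v} ops) (Y : 𝒱.Obj) (χ : Γ →* W.Kˣ)
    (ρ : Γ →* (W.H Y ≃ₐ[W.K] W.H Y)) (j : ℕ) : Prop :=
  ∀ c, IsUni χ (W.gr Y) ρ j c → c ∈ Submodule.span W.K (algClasses W Y j)

/-- The Tate conjecture for one suitable open subvariety implies that all unipotent classes are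
algebraic. -/
lemma uniAlg_of_open {j : ℕ} {U : Y.V.X.Opens}
    (hU : Submodule.span W.K (removedClasses W Y j U) = Submodule.span W.K (algClasses W Y j))
    (h : TateMod χ (W.gr Y) ρ j (removedClasses W Y j U) (algClasses W Y j)) : UniAlg W Y χ ρ j := by
  rintro c ⟨Δ, hΔ, n, hc⟩
  induction n generalizing c with
  | zero =>
    rw [uniStep_zero, Submodule.mem_bot] at hc
    rw [hc]
    exact zero_mem _
  | succ n ih =>
    rw [mem_uniStep_succ] at hc
    refine h c hc.1 ⟨Δ, hΔ, fun g hg => ?_⟩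
    rw [hU]
    exact ih _ (hc.2 g hg)

lemma uniAlg.open (h : IsGaloisAct χ (W.gr Y) Y.dim (W.tr Y) (algClasses W Y) ρ) {j : ℕ}
    (hj : UniAlg W Y χ ρ j) (U : Y.V.X.Opens) :
    TateMod χ (W.gr Y) ρ j (removedClasses W Y j U) (algClasses W Y j) := by
  intro c hc hc'
  apply hj
  have h1 : Submodule.span W.K (removedClasses W Y j U) ≤
      Submodule.span W.K (algClasses W Y j) := Submodule.span_mono (removed_sub j U)
  exact IsUni.of_mod (M := Submodule.span W.K (removedClasses W Y j U)) (h1.trans span_alg_gr)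
    (fun c hc => span_fix h (h1 hc)) hc hc'

/-- The Tate conjecture for the open subvarieties and unipotent classes. -/
theorem tateOpens_iff (h : IsGaloisAct χ (W.gr Y) Y.dim (W.tr Y) (algClasses W Y) ρ) :
    (∀ (j : ℕ) (U : Y.V.X.Opens), SmallComplement Y j U →
      TateMod χ (W.gr Y) ρ j (removedClasses W Y j U) (algClasses W Y j)) ↔
      ∀ j, UniAlg W Y χ ρ j := by
  constructor
  · intro h1 j
    obtain ⟨U, hU, hU'⟩ := exists_open W Y j
    exact uniAlg_of_open hU' (h1 j U hU)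
  · intro h1 j U _
    exact uniAlg.open h (h1 j) U

end Act

/-! ### Powers -/

section Pow

variable {Γ : Type w} [Group Γ] {χ : Γ →* W.Kˣ}
  {ρ : ∀ n, Γ →* (W.H (pw X n) ≃ₐ[W.K] W.H (pw X n))}

/-- The space of all unipotent classes. -/
noncomputable def UG (W : WeilCohomology.{u, v} ops) (X : 𝒱.Obj) (χ : Γ →* W.Kˣ)
    (ρ : ∀ n, Γ →* (W.H (pw X n) ≃ₐ[W.K] W.H (pw X n))) (n : ℕ) :
    Submodule W.K (W.H (pw X n)) :=
  ⨆ j, uniM χ (W.gr (pw X n)) (ρ n) j

lemma UG_eq_span (n : ℕ) : UG W X χ ρ n =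
    Submodule.span W.K {c | ∃ j, IsUni χ (W.gr (pw X n)) (ρ n) j c} := by
  apply le_antisymm
  · apply iSup_le
    intro j c hc
    exact Submodule.subset_span ⟨j, hc⟩
  · rw [Submodule.span_le]
    rintro c ⟨j, hc⟩
    exact le_iSup (fun j => uniM χ (W.gr (pw X n)) (ρ n) j) j hc

lemma uni_alg_le (h : PowerAction W X χ ρ) (n j : ℕ) :
    SC W (pw X n) j ≤ uniM χ (W.gr (pw X n)) (ρ n) j := by
  rw [SC, spanCycles_eq, Submodule.span_le]
  intro c hc
  exact IsUni.of_fixed (alg_gr hc) ((h.galois n).cl_fix j c hc)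

lemma uni_algSpan_le (h : PowerAction W X χ ρ) (n : ℕ) :
    algSpan W (pw X n) ≤ UG W X χ ρ n := by
  rw [algSpan_eq_iSup]
  exact iSup_mono fun j => uni_alg_le h n j

lemma uni_map {m n j : ℕ} {p : pw X n ⟶ pw X m} (hp : Intertwines (W.map p) (ρ m) (ρ n))
    {a : W.H (pw X m)} (ha : IsUni χ (W.gr (pw X m)) (ρ m) j a) :
    IsUni χ (W.gr (pw X n)) (ρ n) j (W.map p a) := by
  obtain ⟨Δ, hΔ, N, h1⟩ := ha
  exact ⟨Δ, hΔ, N, uniStep_map (f := (W.map p).toLinearMap) (fun g _ a => hp g a)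
    (fun a ha => W.map_mem p ha) h1⟩

lemma uni_push {m n j : ℕ} (hn : IsGaloisAct χ (W.gr (pw X n)) (pw X n).dim (W.tr (pw X n))
    (algClasses W (pw X n)) (ρ n))
    (hm : IsGaloisAct χ (W.gr (pw X m)) (pw X m).dim (W.tr (pw X m))
    (algClasses W (pw X m)) (ρ m)) {p : pw X n ⟶ pw X m}
    (hp : Intertwines (W.map p) (ρ m) (ρ n)) {a : W.H (pw X n)}
    (ha : IsUni χ (W.gr (pw X n)) (ρ n) j a) : W.push p a ∈ UG W X χ ρ m := by
  obtain ⟨Δ, hΔ, N, h1⟩ := ha
  by_cases hd : (pw X n).dim ≤ j + (pw X m).dim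
  · refine le_iSup (fun j => uniM χ (W.gr (pw X m)) (ρ m) j)
      (j + (pw X m).dim - (pw X n).dim) ⟨Δ, hΔ, N, ?_⟩
    refine uniStep_push (f := W.push p) (d := (pw X n).dim) (e := (pw X m).dim) (by omega)
      (fun g _ a => push_act hn hm hp g a) (fun a ha => ?_) h1
    have h2 := W.push_mem p ha
    have e1 : ((2 * j : ℕ) : ℤ) + 2 * (((pw X m).dim : ℤ) - (pw X n).dim) =
        ((2 * (j + (pw X m).dim - (pw X n).dim) : ℕ) : ℤ) := by
      push_cast [Nat.cast_sub hd]
      ring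
    rw [e1, grZ_natCast] at h2
    exact h2
  · have h2 := W.push_mem p (uniStep_gr h1)
    rw [grZ_of_neg (by push_cast; omega), Submodule.mem_bot] at h2
    rw [h2]
    exact Submodule.zero_mem _

/-- The unipotent classes form a stable system. -/
lemma uni_stable (h : PowerAction W X χ ρ) : StableSystem W X (UG W X χ ρ) := by
  intro m n f hf a ha
  obtain ⟨e, p, q, ⟨s, hs⟩, ⟨t, ht⟩, hp, hq⟩ := exists_glue X m n
  have hpe := h.equiv p s hs
  have hqe := h.equiv q t ht
  refine Submodule.iSup_induction (fun d : ℤ => KOp W (pw X m) (pw X n) d)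
    (motive := fun f => f a ∈ UG W X χ ρ n) hf ?_ ?_ ?_
  · intro d f hf
    induction hf using Submodule.span_induction with
    | mem f hf =>
      obtain ⟨r, hr, z, hz, rfl⟩ := hf
      have h1 : W.corr (W.cl _ z) a =
          W.push q (W.cl _ (ops.push e z) * W.map p a) := by
        rw [corr_apply, ← hp, ← hq, W.map_comp, W.push_comp, W.push_mul, W.cl_push]
      have hz' : W.cl _ (ops.push e z) ∈ algClasses W (pw X (m + n + 1)) r := by
        refine ⟨_, ops.push_mem e hz ?_, rfl⟩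
        rw [dim_prod, dim_pw, dim_pw, dim_pw]
        ring
      have hz'' : IsUni χ _ (ρ _) r (W.cl _ (ops.push e z)) :=
        uni_alg_le h (m + n + 1) r (alg_mem_span hz')
      rw [h1]
      refine Submodule.iSup_induction (fun j => uniM χ (W.gr (pw X m)) (ρ m) j)
        (motive := fun a => W.push q (W.cl _ (ops.push e z) * W.map p a) ∈ UG W X χ ρ n) ha
        ?_ ?_ ?_
      · intro j a ha
        exact uni_push (h.galois _) (h.galois _) hqe
          (IsUni.mul (fun ha hb => W.mul_mem ha hb) hz'' (uni_map hpe ha))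
      · rw [map_zero, mul_zero, map_zero]
        exact Submodule.zero_mem _
      · intro a b ha hb
        rw [map_add, mul_add, map_add]
        exact Submodule.add_mem _ ha hb
    | zero => exact Submodule.zero_mem _
    | add x y _ _ hx hy => exact Submodule.add_mem _ hx hy
    | smul r x _ hx => exact Submodule.smul_mem _ _ hx
  · exact Submodule.zero_mem _
  · intro f g hf hg
    exact Submodule.add_mem _ hf hg

lemma UG_eq_iff (h : PowerAction W X χ ρ) (n : ℕ) : UG W X χ ρ n = algSpan W (pw X n) ↔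
    ∀ j, UniAlg W (pw X n) χ (ρ n) j := by
  constructor
  · intro h1 j c hc
    have h2 : c ∈ UG W X χ ρ n :=
      le_iSup (fun j => uniM χ (W.gr (pw X n)) (ρ n) j) j hc
    rw [h1, algSpan_eq_iSup] at h2
    rw [← spanCycles_eq]
    exact mem_of_mem_iSup (B := fun j => SC W (pw X n) j) (indep_even W (pw X n))
      (fun j a ha => span_gr ha) (uniM_gr hc) h2
  · intro h1
    apply le_antisymm _ (uni_algSpan_le h n)
    rw [algSpan_eq_iSup]
    apply iSup_mono
    intro j c hc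
    have h2 := h1 j c hc
    rw [← spanCycles_eq] at h2
    exact h2

end Pow

lemma finrank_UG (G : GaloisPowers.{u, v, w} W X) (n : ℕ) :
    Module.finrank W.K (UG W X G.χ G.ρ n) = uniDim G n := by
  rw [UG_eq_span]
  rfl

lemma tateOpens_iff' (G : GaloisPowers.{u, v, w} W X) (n : ℕ) :
    TateOpens G n ↔ UG W X G.χ G.ρ n = algSpan W (pw X n) := by
  rw [UG_eq_iff G.isAction]
  exact tateOpens_iff (G.isAction.galois n)

/-- **The index law for open subvarieties of powers.** -/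
theorem open_index [Nontrivial (W.H X)] (G : GaloisPowers.{u, v, w} W X) : ∃ N : ℕ∞, 1 ≤ N ∧
      Tendsto (fun n => (uniDim G n : ℝ≥0∞) / cycRank ops (pw X n)) atTop (𝓝 (N : ℝ≥0∞)) ∧
      (∀ n, (uniDim G (2 * n + 1) : ℝ≥0∞) / cycRank ops (pw X (2 * n + 1)) ≤ (N : ℝ≥0∞)) ∧
      (N = 1 ↔ ∀ n, TateOpens G n ∧ HomEqNum W (pw X n)) ∧
      (N ≠ ⊤ → (∀ n, HomEqNum W (pw X n)) ∧ UniGenerated G N) := by
  have hst := uni_stable G.isAction
  have hA := uni_algSpan_le G.isAction
  obtain ⟨N, h1, h2, h3, h4, h5⟩ := Pool.Agent.Y133.Half.stable_index hst hA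
  have e : ∀ n, Pool.Agent.Y133.Half.cycRank ops (pw X n) = cycRank ops (pw X n) := fun _ => rfl
  simp only [e, finrank_UG, ← tateOpens_iff'] at h2 h3 h4
  refine ⟨N, h1, h2, h3, h4, fun hN => ⟨h5 hN, ?_⟩⟩
  have h6 : IsIndex W X (UG W X G.χ G.ρ) N := by
    rw [IsIndex]
    simp only [numRank_eq_sum, finrank_UG]
    exact h2
  obtain ⟨r, c, hr, hc, hG⟩ := exists_generators hst hA h6 hN
    (fun n => {c | ∃ j, UniClass G n j c}) UG_eq_span
  refine ⟨r, c, hr, hc, fun n j z hz => ?_⟩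
  have h7 : z ∈ UG W X G.χ G.ρ n :=
    le_iSup (fun j => uniM G.χ (W.gr (pw X n)) (G.ρ n) j) j hz
  rw [hG n] at h7
  exact genSys_le_genBy c n h7

end Pool.Agent.R936
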