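import Pool.Agent.R940.Main
import Pool.Agent.Y133.Half.TateSys

/-!
# Operators on powers: algebraic operators, projectors, tensor products
-/

set_option linter.unusedSectionVars false

open CategoryTheory AlgebraicGeometry Finset

universe u v w

namespace Pool.Agent.R936

open Pool.Agent.H914 Pool.Agent.W534 VarClass Obj WeilCohomology Pool.Agent.H281R3.HT
open Pool.Agent.Y163 (pw pr tup perm HBasis mon mon_eq tup_pr perm_pr perm_mul pw_hom_ext ofFn_perm
  prod_perm)
open Pool.Agent.Y133.Half (algSys Sys PH xp)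
open Pool.Agent.Y133.Half.Sys (Op mem_Op)

/-- The projectors to the generalised eigenspaces are polynomials in the operator. -/
lemma exists_projector {K V ι : Type*} [Field K] [AddCommGroup V] [Module K V] [Finite ι]
    (f : Module.End K V) (b : ι → V) (μ : ι → K) (hb : ∀ i, b i ∈ f.maxGenEigenspace (μ i)) (a : K) :
    ∃ Q : Polynomial K, ∀ i, (μ i = a → Polynomial.aeval f Q (b i) = b i) ∧
      (μ i ≠ a → Polynomial.aeval f Q (b i) = 0) := by
  classical
  cases nonempty_fintype ι
  have h1 : ∀ i, ∃ k : ℕ, ((f - μ i • (1 : Module.End K V)) ^ k) (b i) = 0 := by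
    intro i
    have := hb i
    rwa [Module.End.mem_maxGenEigenspace] at this
  choose k hk using h1
  set N := ∑ i, k i with hN
  have h2 : ∀ i, ((f - μ i • (1 : Module.End K V)) ^ N) (b i) = 0 := by
    intro i
    have h3 : k i ≤ N := Finset.single_le_sum (fun j _ => Nat.zero_le (k j)) (Finset.mem_univ i)
    rw [← Nat.sub_add_cancel h3, pow_add, Module.End.mul_apply, hk, map_zero]
  have e1 : ∀ c : K, Polynomial.aeval f ((Polynomial.X - Polynomial.C c) ^ N) =
      (f - c • (1 : Module.End K V)) ^ N := by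
    intro c
    rw [map_pow, map_sub, Polynomial.aeval_X, Polynomial.aeval_C, Algebra.algebraMap_eq_smul_one]
  set S : Finset K := (Finset.univ.image μ).erase a with hS
  set R : Polynomial K := ∏ c ∈ S, (Polynomial.X - Polynomial.C c) ^ N with hR
  have hcop : IsCoprime R ((Polynomial.X - Polynomial.C a) ^ N) := by
    rw [hR]
    apply IsCoprime.prod_left
    intro c hc
    apply IsCoprime.pow
    exact Polynomial.isCoprime_X_sub_C_of_isUnit_sub
      (sub_ne_zero.2 (Finset.ne_of_mem_erase hc)).isUnit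
  obtain ⟨u, v, huv⟩ := hcop
  refine ⟨u * R, fun i => ⟨fun hi => ?_, fun hi => ?_⟩⟩
  · have h3 : u * R = 1 - v * (Polynomial.X - Polynomial.C a) ^ N := by
      rw [← huv]; ring
    rw [h3, map_sub, map_one, map_mul, e1, LinearMap.sub_apply, Module.End.one_apply,
      Module.End.mul_apply, ← hi, h2, map_zero, sub_zero]
  · have h3 : μ i ∈ S := Finset.mem_erase.2 ⟨hi, Finset.mem_image_of_mem μ (Finset.mem_univ i)⟩
    rw [hR, ← Finset.prod_erase_mul S _ h3, ← mul_assoc, map_mul, e1, Module.End.mul_apply, h2,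
      map_zero]

variable {k : Type u} [Field k] {𝒱 : VarClass k} {ops : CycleOps 𝒱}
  {W : WeilCohomology.{u, v} ops} {X Y Z : 𝒱.Obj} {p : ℕ} {Φ : FrobSystem W p}

lemma op_apply {u : W.H X →ₗ[W.K] W.H Y} (hu : u ∈ (algSys W).Op X Y) {x : W.H X}
    (hx : x ∈ algSpan W X) : u x ∈ algSpan W Y :=
  Op.apply (S := algSys W) (T := algSys W) (fun _ => le_rfl) hu hx

lemma map_mem_op (f : X ⟶ Y) : (W.map f).toLinearMap ∈ (algSys W).Op Y X := by
  have h1 : (W.map f).toLinearMap = W.corr (W.cl _ (ops.push (Obj.lift f (𝟙 X)) X.V.fundCycle)) := by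
    apply LinearMap.ext
    intro a
    rw [W.cl_push, W.cl_fund, corr_apply, ← W.push_mul, one_mul, ← W.push_comp, ← W.map_comp]
    have e1 : Obj.lift f (𝟙 X) ≫ snd Y X = 𝟙 X := Obj.lift_snd _ _
    have e2 : Obj.lift f (𝟙 X) ≫ fst Y X = f := Obj.lift_fst _ _
    rw [e1, e2, W.push_id]
    rfl
  rw [h1]
  apply Op.corr
  have h2 : (Y.prod X).IsCyc Y.dim (ops.push (Obj.lift f (𝟙 X)) X.V.fundCycle) :=
    ops.push_mem _ X.V.fundCycle_mem (by simp only [dim_prod]; ring)
  exact Submodule.subset_span (Set.mem_iUnion.2 ⟨Y.dim, _, h2, rfl⟩)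

lemma frob_mem_op (Φ : FrobSystem W p) (X : 𝒱.Obj) (s : ℕ) :
    frob Φ X s ∈ (algSys W).Op X X := map_mem_op _

lemma aeval_mem_op {f : Module.End W.K (W.H X)} (hf : f ∈ (algSys W).Op X X)
    (Q : Polynomial W.K) : Polynomial.aeval f Q ∈ (algSys W).Op X X := by
  induction Q using Polynomial.induction_on' with
  | add P Q hP hQ => rw [map_add]; exact Submodule.add_mem _ hP hQ
  | monomial n a =>
    rw [Polynomial.aeval_monomial]
    have h1 : ∀ n : ℕ, f ^ n ∈ (algSys W).Op X X := by
      intro n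
      induction n with
      | zero => rw [pow_zero]; exact Op.id
      | succ n ih => rw [pow_succ]; exact Op.comp ih hf
    rw [Algebra.algebraMap_eq_smul_one, smul_mul_assoc, one_mul]
    exact Submodule.smul_mem _ _ (h1 n)

/-! ### Tensor products -/

/-- The external product of classes. -/
noncomputable def monv (Y : 𝒱.Obj) : ∀ n, (Fin (n + 1) → W.H Y) → W.H (pw Y n)
  | 0, v => v 0
  | n + 1, v => W.map (fst Y (pw Y n)) (v 0) * W.map (snd Y (pw Y n)) (monv Y n (Fin.tail v))

/-- The external product of operators. -/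
noncomputable def tens (Y : 𝒱.Obj) : ∀ n, (Fin (n + 1) → Module.End W.K (W.H Y)) →
    Module.End W.K (W.H (pw Y n))
  | 0, A => A 0
  | n + 1, A => extOp W (A 0) (tens Y n (Fin.tail A))

lemma tens_monv : ∀ (n : ℕ) (A : Fin (n + 1) → Module.End W.K (W.H Y)) (v : Fin (n + 1) → W.H Y),
    tens Y n A (monv Y n v) = monv Y n (fun i => A i (v i))
  | 0, _, _ => rfl
  | n + 1, A, v => by
    have h1 := tens_monv n (Fin.tail A) (Fin.tail v)
    have h2 : extOp W (A 0) (tens Y n (Fin.tail A))
        (W.map (fst Y (pw Y n)) (v 0) * W.map (snd Y (pw Y n)) (monv Y n (Fin.tail v))) =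
        W.map (fst Y (pw Y n)) (A 0 (v 0)) *
          W.map (snd Y (pw Y n)) (monv Y n (fun i => A i.succ (v i.succ))) := by
      rw [extOp_tmul, h1]
      rfl
    exact h2

lemma tens_mem : ∀ (n : ℕ) {A : Fin (n + 1) → Module.End W.K (W.H Y)}
    (_ : ∀ i, A i ∈ (algSys W).Op Y Y), tens Y n A ∈ (algSys W).Op (pw Y n) (pw Y n)
  | 0, _, hA => hA 0
  | n + 1, _, hA => Op.ext (hA 0) (tens_mem n fun i => hA i.succ)

lemma monv_eq : ∀ (n : ℕ) (v : Fin (n + 1) → W.H Y),
    monv Y n v = (List.ofFn fun i => W.map (pr Y n i) (v i)).prod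
  | 0, v => by
    rw [List.ofFn_succ, List.ofFn_zero, List.prod_cons, List.prod_nil, mul_one]
    exact (W.map_id _ _).symm
  | n + 1, v => by
    rw [monv, List.ofFn_succ, List.prod_cons, monv_eq n, map_list_prod, List.map_ofFn]
    congr 2
    congr 1
    funext j
    rw [Function.comp_apply, ← W.map_comp]
    rfl

lemma mon_monv {ι : Type v} (B : HBasis W Y ι) (n : ℕ) (I : Fin (n + 1) → ι) :
    mon B n I = monv Y n (fun i => B.b (I i)) := by
  rw [mon_eq, monv_eq]

lemma monv_zero {n : ℕ} {v : Fin (n + 1) → W.H Y} {i : Fin (n + 1)} (h : v i = 0) :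
    monv Y n v = 0 := by
  rw [monv_eq]
  apply List.prod_eq_zero
  rw [List.mem_ofFn]
  exact ⟨i, by rw [h, map_zero]⟩

lemma monv_smul : ∀ (n : ℕ) (c : Fin (n + 1) → W.K) (v : Fin (n + 1) → W.H Y),
    monv Y n (fun i => c i • v i) = (∏ i, c i) • monv Y n v
  | 0, c, v => by
    rw [Fin.prod_univ_one]
    rfl
  | n + 1, c, v => by
    have h1 := monv_smul n (Fin.tail c) (Fin.tail v)
    have h2 : W.map (fst Y (pw Y n)) (c 0 • v 0) *
        W.map (snd Y (pw Y n)) (monv Y n (fun i => Fin.tail c i • Fin.tail v i)) =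
        (∏ i, c i) • (W.map (fst Y (pw Y n)) (v 0) *
          W.map (snd Y (pw Y n)) (monv Y n (Fin.tail v))) := by
      have e : ∏ i, c i = c 0 * ∏ i, Fin.tail c i := Fin.prod_univ_succ c
      rw [h1, map_smul, map_smul, smul_mul_smul_comm, e]
    exact h2

/-- The permutations of the factors permute the monomials in classes of even degree. -/
lemma perm_mon {ι : Type v} (B : HBasis W Y ι) {n : ℕ} {J : Fin (n + 1) → ι}
    (hJ : ∀ i, Even (B.deg (J i))) (σ : Equiv.Perm (Fin (n + 1))) :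
    W.map (perm Y n σ) (mon B n J) = mon B n (J ∘ σ.symm) := by
  rw [mon_eq, mon_eq, map_list_prod, List.map_ofFn]
  have h1 : (List.ofFn ((W.map (perm Y n σ)) ∘ fun i => W.map (pr Y n i) (B.b (J i)))) =
      List.ofFn (fun i => (fun i => W.map (pr Y n i) (B.b ((J ∘ σ.symm) i))) (σ i)) := by
    congr 1
    funext i
    rw [Function.comp_apply, ← W.map_comp, perm_pr]
    beta_reduce
    rw [Function.comp_apply, Equiv.symm_apply_apply]
  rw [h1]
  apply (ofFn_perm (fun i => W.map (pr Y n i) (B.b ((J ∘ σ.symm) i))) σ).prod_eq'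
  rw [List.pairwise_ofFn]
  intro i j _
  obtain ⟨r, hr⟩ := hJ (σ.symm (σ i))
  have h2 : W.map (pr Y n (σ i)) (B.b ((J ∘ σ.symm) (σ i))) ∈ W.gr (pw Y n) (2 * r) := by
    have := W.map_mem (pr Y n (σ i)) (B.mem ((J ∘ σ.symm) (σ i)))
    rwa [show B.deg ((J ∘ σ.symm) (σ i)) = 2 * r by rw [Function.comp_apply, hr]; ring] at this
  exact W.even_comm h2 _

end Pool.Agent.R936
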