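import Pool.Agent.R940.GDefs

/-!
# Symmetric powers: definitions
-/

open CategoryTheory AlgebraicGeometry

universe u v

namespace Pool.Agent.R936

open Pool.Agent.H914 Pool.Agent.W534 VarClass Obj WeilCohomology
open Pool.Agent.Y163 (pw)
open Pool.Agent.R940 (proj)

variable {k : Type u} [Field k] {𝒱 : VarClass k} {ops : CycleOps 𝒱}

/-- The Tate conjecture for the symmetric power of `Y` with `n + 1` factors (the quotient of the
product of `n + 1` copies of `Y` by the permutations of the factors), for generalised Tate classes, in
all codimensions and over all finite extensions of the ground field: every generalised Tate class on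
the product which is invariant under all permutations of the factors is a linear combination of
classes of algebraic cycles. -/
def SymTate {W : WeilCohomology.{u, v} ops} {p : ℕ} (Φ : FrobSystem W p) (Y : 𝒱.Obj) (n : ℕ) :
    Prop :=
  ∀ s j, 0 < s → ∀ c ∈ genTate Φ (pw Y n) s j,
    (∀ σ : Equiv.Perm (Fin (n + 1)), W.map (proj Y σ) c = c) → c ∈ spanCycles W (pw Y n) j

end Pool.Agent.R936
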