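import Pool.Agent.R936.SymA
import Pool.Agent.R936.SymDefs
import Pool.Agent.R940.BGen

/-!
# Words: from symmetric classes to all classes
-/

set_option linter.unusedSectionVars false

open CategoryTheory AlgebraicGeometry Finset

universe u v w

namespace Pool.Agent.R936

open Pool.Agent.H914 Pool.Agent.W534 VarClass Obj WeilCohomology Pool.Agent.H281R3.HT
open Pool.Agent.Y163 (pw pr tup perm HBasis mon mon_eq tup_pr perm_pr perm_mul pw_hom_ext ofFn_perm
  prod_perm genU mem_genU)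
open Pool.Agent.Y133.Half (algSys Sys PH xp)
open Pool.Agent.Y133.Half.Sys (Op mem_Op)

variable {k : Type u} [Field k] {𝒱 : VarClass k} {ops : CycleOps 𝒱}
  {W : WeilCohomology.{u, v} ops} {X Y Z : 𝒱.Obj} {p : ℕ} {Φ : FrobSystem W p}

lemma genU_map (f : X ⟶ Y) {j : ℕ} {c : W.H Y} (hc : c ∈ genU Φ Y j) :
    W.map f c ∈ genU Φ X j := by
  obtain ⟨s, hs, h⟩ := (mem_genU Φ).1 hc
  exact (mem_genU Φ).2 (Pool.Agent.Y163.gen_map Φ f hs h)

lemma perm_eq_proj (Y : 𝒱.Obj) {n : ℕ} (σ : Equiv.Perm (Fin (n + 1))) :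
    perm Y n σ = Pool.Agent.R940.proj Y σ := (Pool.Agent.R940.proj_eq (X := Y) σ).symm

lemma span_le_algSpan {j : ℕ} {c : W.H Y} (hc : c ∈ spanCycles W Y j) : c ∈ algSpan W Y := by
  rw [spanCycles_eq] at hc
  exact Submodule.span_mono (Set.subset_iUnion _ j) hc

/-- **Words with one letter for each label.** -/
theorem rigid_alg {n : ℕ} (hsym : SymTate Φ Y n) {κ L : Type v} (B : HBasis W Y κ) (ℓ : κ → L)
    (hP : ∀ a, ∃ P ∈ (algSys W).Op Y Y, ∀ i, (ℓ i = a → P (B.b i) = B.b i) ∧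
      (ℓ i ≠ a → P (B.b i) = 0)) {J : Fin (n + 1) → κ} {j : ℕ}
    (hJ : ∀ i, Even (B.deg (J i))) (hT : mon B n J ∈ genU Φ (pw Y n) j)
    (hrig : ∀ i i', ℓ (J i) = ℓ (J i') → J i = J i') : mon B n J ∈ algSpan W (pw Y n) := by
  classical
  set c : W.H (pw Y n) := ∑ σ : Equiv.Perm (Fin (n + 1)), W.map (perm Y n σ) (mon B n J) with hc
  have hcU : c ∈ genU Φ (pw Y n) j := Submodule.sum_mem _ fun σ _ => genU_map _ hT
  have hinv : ∀ τ : Equiv.Perm (Fin (n + 1)), W.map (perm Y n τ) c = c := by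
    intro τ
    rw [hc, map_sum]
    refine Fintype.sum_equiv (Equiv.mulLeft τ) _ _ fun σ => ?_
    rw [← W.map_comp, ← perm_mul]
    rfl
  obtain ⟨s, hs, hcs⟩ := (mem_genU Φ).1 hcU
  have hcA : c ∈ algSpan W (pw Y n) := span_le_algSpan
    (hsym s j hs c hcs fun σ => by rw [← perm_eq_proj]; exact hinv σ)
  choose P hPm hPv using hP
  have h1 := op_apply (tens_mem n fun i => hPm (ℓ (J i))) hcA
  have h2 : tens Y n (fun i => P (ℓ (J i))) c =
      ∑ σ : Equiv.Perm (Fin (n + 1)), if J ∘ σ.symm = J then mon B n J else 0 := by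
    rw [hc, map_sum]
    refine Finset.sum_congr rfl fun σ _ => ?_
    rw [perm_mon B hJ, mon_monv, tens_monv]
    by_cases h : J ∘ σ.symm = J
    · rw [if_pos h, mon_monv]
      congr 1
      funext i
      have h3 : (J ∘ σ.symm) i = J i := congrFun h i
      rw [h3]
      exact (hPv _ _).1 rfl
    · rw [if_neg h]
      obtain ⟨i, hi⟩ := Function.ne_iff.1 h
      apply monv_zero (i := i)
      apply (hPv _ _).2
      intro h3
      exact hi (hrig _ _ h3)
  rw [h2, ← Finset.sum_filter, Finset.sum_const] at h1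
  have h3 : ((Finset.univ.filter fun σ : Equiv.Perm (Fin (n + 1)) =>
      J ∘ σ.symm = J).card : W.K) ≠ 0 := by
    rw [Nat.cast_ne_zero, Finset.card_ne_zero]
    exact ⟨1, Finset.mem_filter.2 ⟨Finset.mem_univ _, rfl⟩⟩
  rw [← Nat.cast_smul_eq_nsmul W.K] at h1
  have h4 := Submodule.smul_mem _ ((Finset.univ.filter fun σ : Equiv.Perm (Fin (n + 1)) =>
      J ∘ σ.symm = J).card : W.K)⁻¹ h1
  rwa [smul_smul, inv_mul_cancel₀ h3, one_smul] at h4

/-- **All words.** -/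
theorem word_alg {n : ℕ} (hsym : SymTate Φ Y n) {κ L : Type v} (B : HBasis W Y κ) (ℓ : κ → L)
    (hP : ∀ a, ∃ P ∈ (algSys W).Op Y Y, ∀ i, (ℓ i = a → P (B.b i) = B.b i) ∧
      (ℓ i ≠ a → P (B.b i) = 0))
    (hA : ∀ i i', ℓ i = ℓ i' → ∃ u ∈ (algSys W).Op Y Y, ∃ c : W.K, c ≠ 0 ∧
      u (B.b i) = c • B.b i') {J : Fin (n + 1) → κ} {j : ℕ}
    (hJ : ∀ R : Fin (n + 1) → κ, (∀ i, ℓ (R i) = ℓ (J i)) →
      (∀ i, Even (B.deg (R i))) ∧ mon B n R ∈ genU Φ (pw Y n) j) :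
    mon B n J ∈ algSpan W (pw Y n) := by
  classical
  have : Nonempty κ := ⟨J 0⟩
  set R : Fin (n + 1) → κ := fun i => Function.invFun ℓ (ℓ (J i)) with hR
  have hRl : ∀ i, ℓ (R i) = ℓ (J i) := fun i => Function.invFun_eq ⟨J i, rfl⟩
  obtain ⟨h1, h2⟩ := hJ R hRl
  have h3 := rigid_alg hsym B ℓ hP h1 h2 (fun i i' h => by
    rw [hRl, hRl] at h
    simp only [hR, h])
  choose u hu c hc0 hc using fun i => hA (R i) (J i) (hRl i)
  have h4 := op_apply (tens_mem n hu) h3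
  rw [mon_monv, tens_monv] at h4
  simp only [hc] at h4
  rw [monv_smul, ← mon_monv] at h4
  have h5 : (∏ i, c i) ≠ 0 := Finset.prod_ne_zero_iff.2 fun i _ => hc0 i
  have h6 := Submodule.smul_mem _ (∏ i, c i)⁻¹ h4
  rwa [smul_smul, inv_mul_cancel₀ h5, one_smul] at h6

end Pool.Agent.R936
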