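import Pool.Agent.R936.SymB

/-!
# Words as lists
-/

set_option linter.unusedSectionVars false

open CategoryTheory AlgebraicGeometry Finset

universe u v w

namespace Pool.Agent.R936

open Pool.Agent.H914 Pool.Agent.W534 VarClass Obj WeilCohomology Pool.Agent.H281R3.HT
open Pool.Agent.Y163 (pw pr tup perm HBasis mon mon_eq tup_pr perm_pr perm_mul pw_hom_ext ofFn_perm
  prod_perm genU mem_genU)
open Pool.Agent.Y133.Half (algSys Sys PH xp)
open Pool.Agent.Y133.Half.Sys (Op mem_Op)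
open Pool.Agent.R940 (IsEig gen_semi gen_bilin frob_mul' frob_one')

variable {k : Type u} [Field k] {𝒱 : VarClass k} {ops : CycleOps 𝒱}
  {W : WeilCohomology.{u, v} ops} {X Y Z Z' : 𝒱.Obj} {p : ℕ} {Φ : FrobSystem W p}

/-- The product of the pull-backs of the elements of the basis. -/
noncomputable def lw {ι : Type v} (B : HBasis W X ι) (M : List ((Z ⟶ X) × ι)) : W.H Z :=
  (M.map fun x => W.map x.1 (B.b x.2)).prod

variable {ι κ L : Type v} {B : HBasis W X ι} {lam : ι → W.K}

lemma lw_nil : lw B ([] : List ((Z ⟶ X) × ι)) = 1 := rfl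

lemma lw_cons (x : (Z ⟶ X) × ι) (M : List ((Z ⟶ X) × ι)) :
    lw B (x :: M) = W.map x.1 (B.b x.2) * lw B M := by
  rw [lw, List.map_cons, List.prod_cons]
  rfl

lemma lw_append (M M' : List ((Z ⟶ X) × ι)) : lw B (M ++ M') = lw B M * lw B M' := by
  rw [lw, List.map_append, List.prod_append]
  rfl

lemma map_lw (g : Z' ⟶ Z) (M : List ((Z ⟶ X) × ι)) :
    W.map g (lw B M) = lw B (M.map fun x => (g ≫ x.1, x.2)) := by
  induction M with
  | nil => exact map_one _
  | cons x M ih => rw [lw_cons, map_mul, ih, List.map_cons, lw_cons, ← W.map_comp]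

lemma mon_lw (n : ℕ) (J : Fin (n + 1) → ι) :
    mon B n J = lw B (List.ofFn fun i => (pr X n i, J i)) := by
  rw [mon_eq, lw, List.map_ofFn]
  rfl

lemma lw_perm {M M' : List ((Z ⟶ X) × ι)} (h : M.Perm M') : ∃ ε : W.K, ε ≠ 0 ∧
    lw B M = ε • lw B M' := by
  apply prod_perm (h.map _)
  intro x hx
  obtain ⟨y, _, rfl⟩ := List.mem_map.1 hx
  exact ⟨_, W.map_mem _ (B.mem _)⟩

/-- Compatibility of finitely many morphisms with the Frobenius endomorphisms. -/
lemma frob_list (Φ : FrobSystem W p) (F : List (Z ⟶ X)) : ∃ S S' : ℕ, 0 < S ∧ 0 < S' ∧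
    S * Φ.e Z = S' * Φ.e X ∧ ∀ f ∈ F, ∀ (t : ℕ) (y : W.H X),
      frob Φ Z (S * t) (W.map f y) = W.map f (frob Φ X (S' * t) y) := by
  induction F with
  | nil =>
    exact ⟨Φ.e X, Φ.e Z, Φ.e_pos X, Φ.e_pos Z, mul_comm _ _, fun f hf => absurd hf
      (List.not_mem_nil)⟩
  | cons f F ih =>
    obtain ⟨S, S', hS, hS', hSS, h⟩ := ih
    obtain ⟨a, b, ha, hb, hab, h1⟩ := frob_comm Φ f
    have hba : S * b = S' * a := by
      apply Nat.eq_of_mul_eq_mul_right (Φ.e_pos X)
      calc S * b * Φ.e X = S * (b * Φ.e X) := by ring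
        _ = a * (S * Φ.e Z) := by rw [← hab]; ring
        _ = S' * a * Φ.e X := by rw [hSS]; ring
    refine ⟨S * a, S * b, Nat.mul_pos hS ha, Nat.mul_pos hS hb, ?_, ?_⟩
    · calc S * a * Φ.e Z = S * (a * Φ.e Z) := by ring
        _ = S * b * Φ.e X := by rw [hab]; ring
    · intro g hg t y
      rcases List.mem_cons.1 hg with rfl | hg
      · have h2 := h1 (S * t) y
        rw [show S * a * t = a * (S * t) by ring, show S * b * t = b * (S * t) by ring]
        exact h2
      · have h2 := h g hg (a * t) y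
        rw [show S * a * t = S * (a * t) by ring, hba, show S' * a * t = S' * (a * t) by ring]
        exact h2

lemma lw_gr (M : List ((Z ⟶ X) × ι)) :
    lw B M ∈ W.gr Z (M.map fun x => B.deg x.2).sum := by
  induction M with
  | nil => exact W.one_mem Z
  | cons x M ih =>
    rw [lw_cons, List.map_cons, List.sum_cons]
    exact W.mul_mem (W.map_mem _ (B.mem _)) ih

lemma lw_gen (hB : IsEig Φ B lam) {S S' : ℕ} (M : List ((Z ⟶ X) × ι))
    (h : ∀ f ∈ M.map Prod.fst, ∀ (t : ℕ) (y : W.H X),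
      frob Φ Z (S * t) (W.map f y) = W.map f (frob Φ X (S' * t) y)) (t : ℕ) :
    lw B M ∈ (frob Φ Z (S * t)).maxGenEigenspace ((M.map fun x => lam x.2).prod ^ (S' * t)) := by
  induction M with
  | nil =>
    rw [List.map_nil, List.prod_nil, one_pow, lw_nil, Module.End.mem_maxGenEigenspace]
    refine ⟨1, ?_⟩
    rw [pow_one, LinearMap.sub_apply, LinearMap.smul_apply, Module.End.one_apply, one_smul,
      frob_one', sub_self]
  | cons x M ih =>
    rw [lw_cons, List.map_cons, List.prod_cons, mul_pow]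
    refine gen_bilin (β := LinearMap.mul W.K (W.H Z)) (fun a b => (frob_mul' Φ _ a b).symm) ?_
      (ih fun f hf => h f (by rw [List.map_cons]; exact List.mem_cons_of_mem _ hf))
    refine gen_semi (f := frob Φ X (S' * t)) (θ := (W.map x.1).toLinearMap)
      (fun y => h x.1 (by rw [List.map_cons]; exact List.mem_cons_self) t y) ?_
    have h1 := gen_mono (frob Φ X 1) (lam x.2) (S' * t) (hB x.2)
    rwa [← frob_mul_eq, one_mul] at h1

/-- The word is a Tate word. -/
def TL {K : Type*} [Field K] {ι : Type*} (q : ℕ) (lam : ι → K) (deg : ι → ℕ) (M : List ι)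
    (J : ℕ) : Prop :=
  (M.map deg).sum = 2 * J ∧ ∃ s, 0 < s ∧ (M.map lam).prod ^ s = ((q ^ (J * s) : ℕ) : K)

lemma lw_genU (hB : IsEig Φ B lam) (M : List ((Z ⟶ X) × ι)) {J : ℕ}
    (hM : TL (p ^ Φ.e X) lam B.deg (M.map Prod.snd) J) : lw B M ∈ genU Φ Z J := by
  obtain ⟨h1, s, hs, h2⟩ := hM
  rw [List.map_map] at h1 h2
  obtain ⟨S, S', hS, hS', hSS, h⟩ := frob_list Φ (M.map Prod.fst)
  refine (mem_genU Φ).2 ⟨S * s, Nat.mul_pos hS hs, ?_, ?_⟩
  · have h3 := lw_gen hB M h s
    have h4 : (M.map fun x => lam x.2).prod ^ (S' * s) = (Pool.Agent.W534.card Φ Z (S * s) : W.K) ^ J := by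
      have h5 : (M.map fun x => lam x.2).prod ^ s = (((p ^ Φ.e X) ^ (J * s) : ℕ) : W.K) := h2
      rw [mul_comm S', pow_mul, h5, Pool.Agent.W534.card, ← Nat.cast_pow, ← Nat.cast_pow, ← pow_mul, ← pow_mul,
        ← pow_mul]
      congr 2
      calc Φ.e X * (J * s * S') = (S' * Φ.e X) * (s * J) := by ring
        _ = Φ.e Z * (S * s) * J := by rw [← hSS]; ring
    rw [← h4]
    exact h3
  · rw [← h1]
    exact lw_gr M

end Pool.Agent.R936
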