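import Pool.Agent.R936.SymC

/-!
# Words on a variety and on its square
-/

set_option linter.unusedSectionVars false

open CategoryTheory AlgebraicGeometry Finset

universe u v w

namespace Pool.Agent.R936

open Pool.Agent.H914 Pool.Agent.W534 VarClass Obj WeilCohomology Pool.Agent.H281R3.HT
open Pool.Agent.Y163 (pw pr tup perm HBasis mon mon_eq tup_pr perm_pr perm_mul pw_hom_ext ofFn_perm
  prod_perm genU mem_genU)
open Pool.Agent.Y133.Half (algSys Sys PH xp)
open Pool.Agent.Y133.Half.Sys (Op mem_Op)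
open Pool.Agent.R940 (IsEig gen_semi gen_bilin frob_mul' frob_one')
open Pool.Agent.W536.RR (algSpan_map algSpan_mul one_mem_algSpan)

variable {k : Type u} [Field k] {𝒱 : VarClass k} {ops : CycleOps 𝒱}
  {W : WeilCohomology.{u, v} ops} {X Y Z Z' : 𝒱.Obj} {p : ℕ} {Φ : FrobSystem W p}

variable {ι κ L : Type v} {B : HBasis W X ι} {lam : ι → W.K}

/-- A variety `Y` over `X` the classes on which are words in the classes on `X`. -/
structure Cover (B : HBasis W X ι) (lam : ι → W.K) (Y : 𝒱.Obj) (κ L : Type v) where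
  B' : HBasis W Y κ
  lt : κ → List ι
  ms : ∀ {Z : 𝒱.Obj}, ((Z ⟶ Y) × κ) → List ((Z ⟶ X) × ι)
  ms_lt : ∀ {Z : 𝒱.Obj} (x : (Z ⟶ Y) × κ), (ms x).map Prod.snd = lt x.2
  ms_val : ∀ {Z : 𝒱.Obj} (x : (Z ⟶ Y) × κ), lw B (ms x) = W.map x.1 (B'.b x.2)
  ℓ : κ → L
  ℓ_lam : ∀ a a', ℓ a = ℓ a' → (lt a).map lam = (lt a').map lam
  deg : ∀ a, B'.deg a = ((lt a).map B.deg).sum
  k0 : κ
  c0 : W.K
  hc0 : c0 ≠ 0
  hk0 : B'.b k0 = c0 • 1
  deg0 : ((lt k0).map B.deg).sum = 0
  lam0 : ((lt k0).map lam).prod = 1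
  hP : ∀ a, ∃ P ∈ (algSys W).Op Y Y, ∀ i, (ℓ i = a → P (B'.b i) = B'.b i) ∧
      (ℓ i ≠ a → P (B'.b i) = 0)

lemma TL_of_map {K : Type*} [Field K] {ι : Type*} {q : ℕ} {lam : ι → K} {deg : ι → ℕ}
    (hd : ∀ l m, lam l = lam m → deg l = deg m) {M M' : List ι} (h : M.map lam = M'.map lam)
    {J : ℕ} (hM : TL q lam deg M J) : TL q lam deg M' J := by
  obtain ⟨h1, s, hs, h2⟩ := hM
  have h3 : ∃ δ : K → ℕ, ∀ l, deg l = δ (lam l) := by
    refine ⟨Function.extend lam deg 0, fun l => ?_⟩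
    have hf : Function.FactorsThrough deg lam := fun l m h => hd l m h
    rw [hf.extend_apply]
  obtain ⟨δ, hδ⟩ := h3
  have h4 : ∀ N : List ι, N.map deg = (N.map lam).map δ := by
    intro N
    rw [List.map_map]
    exact List.map_congr_left fun l _ => hδ l
  refine ⟨?_, s, hs, ?_⟩
  · rw [h4, ← h, ← h4, h1]
  · rw [← h, h2]

lemma exists_ofFn {α : Type*} (l : List α) {m : ℕ} (h : l.length = m) :
    ∃ g : Fin m → α, List.ofFn g = l := by
  subst h
  exact ⟨l.get, List.ofFn_get l⟩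

namespace Cover

variable (C : Cover B lam Y κ L)

lemma lw_flat (P : List ((Z ⟶ Y) × κ)) : lw C.B' P = lw B (P.flatMap C.ms) := by
  induction P with
  | nil => rfl
  | cons x P ih => rw [lw_cons, List.flatMap_cons, lw_append, C.ms_val, ih]

lemma flat_snd (P : List ((Z ⟶ Y) × κ)) :
    (P.flatMap C.ms).map Prod.snd = (P.map Prod.snd).flatMap C.lt := by
  induction P with
  | nil => rfl
  | cons x P ih =>
    rw [List.flatMap_cons, List.map_append, List.map_cons, List.flatMap_cons, C.ms_lt, ih]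

lemma mon_genU (hB : IsEig Φ B lam) {n : ℕ} (R : Fin (n + 1) → κ) {J : ℕ}
    (h : TL (p ^ Φ.e X) lam B.deg ((List.ofFn R).flatMap C.lt) J) :
    mon C.B' n R ∈ genU Φ (pw Y n) J := by
  rw [mon_lw, C.lw_flat]
  apply lw_genU hB
  rw [C.flat_snd, List.map_ofFn]
  exact h

lemma flat_lam {n : ℕ} {R J : Fin (n + 1) → κ} (h : ∀ i, C.ℓ (R i) = C.ℓ (J i)) :
    ((List.ofFn R).flatMap C.lt).map lam = ((List.ofFn J).flatMap C.lt).map lam := by
  have h1 : ∀ R : Fin (n + 1) → κ, ((List.ofFn R).flatMap C.lt).map lam =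
      (List.ofFn fun i => (C.lt (R i)).map lam).flatten := by
    intro R
    rw [List.map_flatMap, List.flatMap_def, List.map_ofFn]
    rfl
  rw [h1, h1]
  congr 2
  funext i
  exact C.ℓ_lam _ _ (h i)

lemma deg_eq (hd : ∀ l m, lam l = lam m → B.deg l = B.deg m) {a a' : κ} (h : C.ℓ a = C.ℓ a') :
    C.B'.deg a = C.B'.deg a' := by
  obtain ⟨δ, hδ⟩ : ∃ δ : W.K → ℕ, ∀ l, B.deg l = δ (lam l) := by
    refine ⟨Function.extend lam B.deg 0, fun l => ?_⟩
    have hf : Function.FactorsThrough B.deg lam := fun l m h => hd l m h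
    rw [hf.extend_apply]
  have h4 : ∀ N : List ι, N.map B.deg = (N.map lam).map δ := by
    intro N
    rw [List.map_map]
    exact List.map_congr_left fun l _ => hδ l
  rw [C.deg, C.deg, h4, h4, C.ℓ_lam _ _ h]

lemma rigid (hB : IsEig Φ B lam) {n : ℕ} (hsym : SymTate Φ Y n) {J : Fin (n + 1) → κ} {j : ℕ}
    (hJ : ∀ i, Even (C.B'.deg (J i)))
    (hT : TL (p ^ Φ.e X) lam B.deg ((List.ofFn J).flatMap C.lt) j)
    (hrig : ∀ i i', C.ℓ (J i) = C.ℓ (J i') → J i = J i') :
    mon C.B' n J ∈ algSpan W (pw Y n) :=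
  rigid_alg hsym C.B' C.ℓ C.hP hJ (C.mon_genU hB J hT) hrig

lemma word (hB : IsEig Φ B lam) (hd : ∀ l m, lam l = lam m → B.deg l = B.deg m) {n : ℕ}
    (hsym : SymTate Φ Y n)
    (hA : ∀ i i', C.ℓ i = C.ℓ i' → ∃ u ∈ (algSys W).Op Y Y, ∃ c : W.K, c ≠ 0 ∧
      u (C.B'.b i) = c • C.B'.b i') {J : Fin (n + 1) → κ} {j : ℕ}
    (hJ : ∀ i, Even (C.B'.deg (J i)))
    (hT : TL (p ^ Φ.e X) lam B.deg ((List.ofFn J).flatMap C.lt) j) :
    mon C.B' n J ∈ algSpan W (pw Y n) :=
  word_alg hsym C.B' C.ℓ C.hP hA (j := j) fun R hR => ⟨fun i => by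
    rw [C.deg_eq hd (hR i)]
    exact hJ i, C.mon_genU hB R (TL_of_map hd (C.flat_lam hR).symm hT)⟩

/-- Words which are completed by units. -/
lemma padded {n : ℕ} (P : List ((Z ⟶ Y) × κ)) (hP : P ≠ []) (hlen : P.length ≤ n + 1)
    (H : ∀ J : Fin (n + 1) → κ, List.ofFn J = P.map Prod.snd ++
      List.replicate (n + 1 - P.length) C.k0 → mon C.B' n J ∈ algSpan W (pw Y n)) :
    lw C.B' P ∈ algSpan W Z := by
  obtain ⟨x0, P1, hP1⟩ := List.exists_cons_of_ne_nil hP
  set P' := P ++ List.replicate (n + 1 - P.length) (x0.1, C.k0) with hP'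
  have hlen' : P'.length = n + 1 := by
    rw [hP', List.length_append, List.length_replicate]
    omega
  obtain ⟨g, hg⟩ := exists_ofFn P' hlen'
  have h1 := H (fun i => (g i).2) (by
    have h2 : List.ofFn (fun i => (g i).2) = (List.ofFn g).map Prod.snd := by
      rw [List.map_ofFn]
      rfl
    rw [h2, hg, hP', List.map_append, List.map_replicate])
  have h2 := algSpan_map (tup n fun i => (g i).1) h1
  rw [mon_lw, map_lw, List.map_ofFn] at h2
  have h3 : ((fun x : (pw Y n ⟶ Y) × κ => ((tup n fun i => (g i).1) ≫ x.1, x.2)) ∘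
      fun i => (pr Y n i, (g i).2)) = g := by
    funext i
    rw [Function.comp_apply]
    dsimp only
    rw [tup_pr]
  rw [h3, hg, hP', lw_append] at h2
  have h4 : ∀ m : ℕ, lw C.B' (List.replicate m (x0.1, C.k0)) = C.c0 ^ m • (1 : W.H Z) := by
    intro m
    induction m with
    | zero => rw [List.replicate_zero, lw_nil, pow_zero, one_smul]
    | succ m ih =>
      rw [List.replicate_succ, lw_cons, ih, C.hk0, map_smul, map_one, smul_mul_smul_comm, one_mul,
        pow_succ']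
  rw [h4, mul_smul_comm, mul_one] at h2
  have h5 := Submodule.smul_mem _ (C.c0 ^ (n + 1 - P.length))⁻¹ h2
  rwa [smul_smul, inv_mul_cancel₀ (pow_ne_zero _ C.hc0), one_smul] at h5

/-- The completed word is a Tate word. -/
lemma TL_pad {P : List κ} {J : ℕ} (m : ℕ) {q : ℕ}
    (h : TL q lam B.deg (P.flatMap C.lt) J) :
    TL q lam B.deg ((P ++ List.replicate m C.k0).flatMap C.lt) J := by
  have h1 : (((List.replicate m C.k0).flatMap C.lt).map B.deg).sum = 0 := by
    induction m with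
    | zero => rfl
    | succ m ih =>
      rw [List.replicate_succ, List.flatMap_cons, List.map_append, List.sum_append, ih, C.deg0]
  have h2 : (((List.replicate m C.k0).flatMap C.lt).map lam).prod = 1 := by
    induction m with
    | zero => rfl
    | succ m ih =>
      rw [List.replicate_succ, List.flatMap_cons, List.map_append, List.prod_append, ih, C.lam0,
        one_mul]
      rw [List.replicate_succ, List.flatMap_cons, List.map_append, List.sum_append, C.deg0,
        zero_add] at h1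
      exact h1
  obtain ⟨h3, s, hs, h4⟩ := h
  refine ⟨?_, s, hs, ?_⟩
  · rw [List.flatMap_append, List.map_append, List.sum_append, h1, add_zero, h3]
  · rw [List.flatMap_append, List.map_append, List.prod_append, h2, mul_one, h4]

lemma deg_k0 : C.B'.deg C.k0 = 0 := by rw [C.deg, C.deg0]

/-- Rigid words. -/
lemma rigid_list (hB : IsEig Φ B lam) {n : ℕ} (hsym : SymTate Φ Y n) (P : List ((Z ⟶ Y) × κ))
    (hP : P ≠ []) (hlen : P.length ≤ n + 1) {j : ℕ} (hev : ∀ x ∈ P, Even (C.B'.deg x.2))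
    (hT : TL (p ^ Φ.e X) lam B.deg ((P.map Prod.snd).flatMap C.lt) j)
    (hrig : ∀ a ∈ C.k0 :: P.map Prod.snd, ∀ a' ∈ C.k0 :: P.map Prod.snd,
      C.ℓ a = C.ℓ a' → a = a') : lw C.B' P ∈ algSpan W Z := by
  refine C.padded P hP hlen fun J hJ => ?_
  have hmem : ∀ i, J i ∈ C.k0 :: P.map Prod.snd := by
    intro i
    have h1 : J i ∈ List.ofFn J := (List.mem_ofFn' _ _).2 ⟨i, rfl⟩
    rw [hJ] at h1
    rcases List.mem_append.1 h1 with h2 | h2
    · exact List.mem_cons_of_mem _ h2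
    · rw [List.eq_of_mem_replicate h2]
      exact List.mem_cons_self
  refine C.rigid hB hsym (j := j) (fun i => ?_) ?_ fun i i' h => hrig _ (hmem i) _ (hmem i') h
  · rcases List.mem_cons.1 (hmem i) with h | h
    · rw [h, C.deg_k0]
      exact Even.zero
    · obtain ⟨x, hx, hx'⟩ := List.mem_map.1 h
      rw [← hx']
      exact hev x hx
  · rw [hJ]
    exact C.TL_pad _ hT

/-- All words. -/
lemma word_list (hB : IsEig Φ B lam) (hd : ∀ l m, lam l = lam m → B.deg l = B.deg m) {n : ℕ}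
    (hsym : SymTate Φ Y n)
    (hA : ∀ i i', C.ℓ i = C.ℓ i' → ∃ u ∈ (algSys W).Op Y Y, ∃ c : W.K, c ≠ 0 ∧
      u (C.B'.b i) = c • C.B'.b i') (P : List ((Z ⟶ Y) × κ))
    (hP : P ≠ []) (hlen : P.length ≤ n + 1) {j : ℕ} (hev : ∀ x ∈ P, Even (C.B'.deg x.2))
    (hT : TL (p ^ Φ.e X) lam B.deg ((P.map Prod.snd).flatMap C.lt) j) :
    lw C.B' P ∈ algSpan W Z := by
  refine C.padded P hP hlen fun J hJ => ?_
  have hmem : ∀ i, J i ∈ C.k0 :: P.map Prod.snd := by
    intro i
    have h1 : J i ∈ List.ofFn J := (List.mem_ofFn' _ _).2 ⟨i, rfl⟩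
    rw [hJ] at h1
    rcases List.mem_append.1 h1 with h2 | h2
    · exact List.mem_cons_of_mem _ h2
    · rw [List.eq_of_mem_replicate h2]
      exact List.mem_cons_self
  refine C.word hB hd hsym hA (j := j) (fun i => ?_) ?_
  · rcases List.mem_cons.1 (hmem i) with h | h
    · rw [h, C.deg_k0]
      exact Even.zero
    · obtain ⟨x, hx, hx'⟩ := List.mem_map.1 h
      rw [← hx']
      exact hev x hx
  · rw [hJ]
    exact C.TL_pad _ hT

end Cover

end Pool.Agent.R936
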