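import Pool.Agent.R936.SymD

/-!
# The unit, dual vectors, and the covers by the variety and by its square
-/

set_option linter.unusedSectionVars false

open CategoryTheory AlgebraicGeometry Finset Polynomial

universe u v w

namespace Pool.Agent.R936

open Pool.Agent.H914 Pool.Agent.W534 VarClass Obj WeilCohomology Pool.Agent.H281R3.HT
open Pool.Agent.Y163 (pw pr tup perm HBasis mon mon_eq tup_pr perm_pr perm_mul pw_hom_ext ofFn_perm
  prod_perm genU mem_genU)
open Pool.Agent.Y133.Half (algSys Sys PH xp corr_xp)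
open Pool.Agent.Y133.Half.Sys (Op mem_Op)
open Pool.Agent.R940 (IsEig gen_semi gen_bilin frob_mul' frob_one' IsWeilFamily repr_zero)
open Pool.Agent.W536.RR (algSpan_map algSpan_mul one_mem_algSpan)

variable {k : Type u} [Field k] {𝒱 : VarClass k} {ops : CycleOps 𝒱}
  {W : WeilCohomology.{u, v} ops} {X Y Z Z' : 𝒱.Obj} {p : ℕ} {Φ : FrobSystem W p}

section Weil

variable {K ι : Type*} [Field K] [CharZero K] [hp : Fact p.Prime] {e D : ℕ} {lam : ι → K}
  {deg : ι → ℕ}

lemma exists_root (hF : IsWeilFamily p e D lam deg) (l : ι) :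
    ∃ y : ℂ, aeval y (minpoly ℚ (lam l)) = 0 := by
  apply IsAlgClosed.exists_aeval_eq_zero
  have h1 : IsIntegral ℚ (lam l) := (hF.int l).tower_top
  exact (minpoly.degree_pos h1).ne'

lemma one_lt_q (he : 0 < e) : (1 : ℝ) < (p : ℝ) ^ e :=
  one_lt_pow₀ (by exact_mod_cast hp.out.one_lt) he.ne'

lemma deg_of_lam (hF : IsWeilFamily p e D lam deg) (he : 0 < e) (l m : ι) (h : lam l = lam m) :
    deg l = deg m := by
  obtain ⟨y, hy⟩ := exists_root hF l
  have h1 := hF.arch l y hy
  rw [h] at hy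
  have h2 := hF.arch m y hy
  rw [h1] at h2
  exact pow_right_injective₀ (by have := one_lt_q (p := p) he; positivity) (one_lt_q he).ne' h2

lemma deg_of_one (hF : IsWeilFamily p e D lam deg) (he : 0 < e) {l : ι} (h : lam l = 1) :
    deg l = 0 := by
  have hy : aeval (1 : ℂ) (minpoly ℚ (lam l)) = 0 := by
    rw [h, minpoly.one]
    simp
  have h1 := hF.arch l 1 hy
  rw [norm_one, one_pow] at h1
  by_contra hne
  have h2 := one_lt_pow₀ (one_lt_q (p := p) he) hne
  rw [← h1] at h2
  exact lt_irrefl _ h2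

end Weil

variable {ι κ L : Type v} {B : HBasis W X ι} {lam : ι → W.K}

/-- The unit of the basis. -/
structure IsUnitIdx (B : HBasis W X ι) (lam : ι → W.K) (i0 : ι) (c0 : W.K) : Prop where
  ne : c0 ≠ 0
  val : B.b i0 = c0 • 1
  deg : B.deg i0 = 0
  lam_eq : lam i0 = 1
  uniq : ∀ l, lam l = 1 → l = i0

lemma exists_unit [hp : Fact p.Prime] [Finite ι] (hB : IsEig Φ B lam) {D : ℕ}
    (hF : IsWeilFamily p (Φ.e X) D lam B.deg) (h1 : (1 : W.H X) ≠ 0) :
    ∃ i0 c0, IsUnitIdx B lam i0 c0 := by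
  classical
  have hex : ∃ i0, B.b.repr 1 i0 ≠ 0 := by
    by_contra hcon
    push Not at hcon
    apply h1
    apply B.b.repr.injective
    ext i
    rw [hcon, map_zero]
    rfl
  obtain ⟨i0, hi0⟩ := hex
  have hdeg : B.deg i0 = 0 := by
    by_contra hne
    exact hi0 (repr_zero (W.isInternal X).submodule_iSupIndep B.b B.deg B.mem (W.one_mem X) hne)
  have hspan : ∀ l, B.deg l = 0 → ∃ c : W.K, c • (1 : W.H X) = B.b l := by
    intro l hl
    have h2 := B.mem l
    rw [hl, W.gr_zero] at h2
    exact Submodule.mem_span_singleton.1 h2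
  obtain ⟨c0, hc0⟩ := hspan i0 hdeg
  have hc : c0 ≠ 0 := by
    rintro rfl
    rw [zero_smul] at hc0
    exact B.b.ne_zero i0 hc0.symm
  have hlam : lam i0 = 1 := by
    by_contra hne
    have h2 : B.b i0 ∈ (frob Φ X 1).maxGenEigenspace (1 : W.K) := by
      rw [Module.End.mem_maxGenEigenspace]
      refine ⟨1, ?_⟩
      rw [pow_one, LinearMap.sub_apply, LinearMap.smul_apply, Module.End.one_apply, one_smul, ← hc0,
        map_smul, frob_one', sub_self]
    have h3 := repr_zero (Module.End.independent_maxGenEigenspace (frob Φ X 1)) B.b lam hB h2 hne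
    rw [B.b.repr_self, Finsupp.single_eq_same] at h3
    exact one_ne_zero h3
  refine ⟨i0, c0, hc, hc0.symm, hdeg, hlam, fun l hl => ?_⟩
  obtain ⟨c, hc'⟩ := hspan l (deg_of_one hF (Φ.e_pos X) hl)
  by_contra hne
  have h2 : B.b l = (c * c0⁻¹) • B.b i0 := by
    rw [← hc', ← hc0, smul_smul, mul_assoc, inv_mul_cancel₀ hc, mul_one]
  have h3 : B.b.repr (B.b l) l = B.b.repr ((c * c0⁻¹) • B.b i0) l := by rw [← h2]
  rw [map_smul, B.b.repr_self, B.b.repr_self, Finsupp.single_eq_same, Finsupp.smul_apply,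
    Finsupp.single_eq_of_ne hne, smul_zero] at h3
  exact one_ne_zero h3

/-- The dual vectors. -/
lemma exists_dual [Finite ι] (hB : IsEig Φ B lam) (l : ι) : ∃ m, W.tr X (B.b m * B.b l) ≠ 0 ∧
    B.deg m + B.deg l = 2 * X.dim ∧ lam m * lam l = (((p ^ Φ.e X) ^ X.dim : ℕ) : W.K) := by
  classical
  cases nonempty_fintype ι
  have hex : ∃ m, W.tr X (B.b m * B.b l) ≠ 0 := by
    by_contra hcon
    push Not at hcon
    apply B.b.ne_zero l
    apply W.nondeg
    intro y
    rw [← B.b.sum_repr y, Finset.mul_sum, map_sum]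
    refine Finset.sum_eq_zero fun m _ => ?_
    rw [mul_smul_comm, map_smul, W.comm (B.mem l) (B.mem m), map_smul, hcon, smul_zero, smul_zero]
  obtain ⟨m, hm⟩ := hex
  refine ⟨m, hm, ?_, ?_⟩
  · by_contra hne
    exact hm (W.tr_eq_zero (W.mul_mem (B.mem m) (B.mem l)) hne)
  · have h1 : B.b m * B.b l ∈ (frob Φ X 1).maxGenEigenspace (lam m * lam l) :=
      gen_bilin (β := LinearMap.mul W.K (W.H X)) (fun a b => (frob_mul' Φ _ a b).symm) (hB m) (hB l)
    set Q : W.K := (((p ^ Φ.e X) ^ X.dim : ℕ) : W.K) with hQ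
    have h2 : W.tr X (B.b m * B.b l) ∈
        (Q • (1 : Module.End W.K W.K)).maxGenEigenspace (lam m * lam l) := by
      refine gen_semi (f := frob Φ X 1) (θ := W.tr X) (fun x => ?_) h1
      rw [LinearMap.smul_apply, Module.End.one_apply, frob_apply, tr_iter, smul_eq_mul, hQ]
      congr 1
      push_cast
      rw [← pow_mul, mul_one]
    obtain ⟨n, hn⟩ := (Module.End.mem_maxGenEigenspace _ _ _).1 h2
    have hn : (((Q - lam m * lam l) • (1 : Module.End W.K W.K)) ^ n)
        (W.tr X (B.b m * B.b l)) = 0 := by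
      have hE : (Q - lam m * lam l) • (1 : Module.End W.K W.K) =
          Q • (1 : Module.End W.K W.K) - (lam m * lam l) • (1 : Module.End W.K W.K) := by
        apply LinearMap.ext
        intro x
        rw [LinearMap.sub_apply, LinearMap.smul_apply, LinearMap.smul_apply, LinearMap.smul_apply,
          Module.End.one_apply, smul_eq_mul, smul_eq_mul, smul_eq_mul, sub_mul]
      rw [hE]
      exact hn
    have h3 : ∀ (n : ℕ) (x : W.K), (((Q - lam m * lam l) • (1 : Module.End W.K W.K)) ^ n) x =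
        (Q - lam m * lam l) ^ n * x := by
      intro n
      induction n with
      | zero => intro x; rw [pow_zero, pow_zero, one_mul]; rfl
      | succ n ih =>
        intro x
        rw [pow_succ', Module.End.mul_apply, ih, LinearMap.smul_apply, Module.End.one_apply,
          smul_eq_mul, pow_succ', mul_assoc]
    rw [h3] at hn
    have h4 := (mul_eq_zero.1 hn).resolve_right hm
    have h5 : Q - lam m * lam l = 0 := by
      by_contra hne
      exact pow_ne_zero n hne h4
    exact (sub_eq_zero.1 h5).symm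

/-- The cover of a variety by itself. -/
noncomputable def idCover [Finite ι] (hB : IsEig Φ B lam) {i0 : ι} {c0 : W.K}
    (h0 : IsUnitIdx B lam i0 c0) : Cover B lam X ι W.K where
  B' := B
  lt l := [l]
  ms x := [x]
  ms_lt x := rfl
  ms_val x := by rw [lw_cons, lw_nil, mul_one]
  ℓ := lam
  ℓ_lam a a' h := by rw [List.map_cons, List.map_nil, List.map_cons, List.map_nil, h]
  deg a := by rw [List.map_cons, List.map_nil, List.sum_cons, List.sum_nil, add_zero]
  k0 := i0
  c0 := c0
  hc0 := h0.ne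
  hk0 := h0.val
  deg0 := by rw [List.map_cons, List.map_nil, List.sum_cons, List.sum_nil, add_zero, h0.deg]
  lam0 := by rw [List.map_cons, List.map_nil, List.prod_cons, List.prod_nil, mul_one, h0.lam_eq]
  hP a := by
    obtain ⟨Q, hQ⟩ := exists_projector (frob Φ X 1) B.b lam hB a
    exact ⟨_, aeval_mem_op (frob_mem_op Φ X 1) Q, hQ⟩

/-- The basis of the cohomology of the square. -/
noncomputable def pairBasis (B : HBasis W X ι) : HBasis W (X.prod X) (ι × ι) where
  b := (B.b.tensorProduct B.b).map (kappa W X X)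
  deg x := B.deg x.1 + B.deg x.2
  mem x := by
    rw [Module.Basis.map_apply, Module.Basis.tensorProduct_apply', kappa_tmul]
    exact W.mul_mem (W.map_mem _ (B.mem _)) (W.map_mem _ (B.mem _))

lemma pairBasis_b (x : ι × ι) : (pairBasis B).b x =
    W.map (fst X X) (B.b x.1) * W.map (snd X X) (B.b x.2) := by
  change ((B.b.tensorProduct B.b).map (kappa W X X)) x = _
  rw [Module.Basis.map_apply, Module.Basis.tensorProduct_apply', kappa_tmul]

/-- The square of a variety. -/
noncomputable def pairCover [Finite ι] (hB : IsEig Φ B lam) {i0 : ι} {c0 : W.K}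
    (h0 : IsUnitIdx B lam i0 c0) : Cover B lam (X.prod X) (ι × ι) (W.K × W.K) where
  B' := pairBasis B
  lt x := [x.1, x.2]
  ms x := [(x.1 ≫ fst X X, x.2.1), (x.1 ≫ snd X X, x.2.2)]
  ms_lt x := rfl
  ms_val x := by
    rw [lw_cons, lw_cons, lw_nil, mul_one, pairBasis_b, map_mul, ← W.map_comp, ← W.map_comp]
  ℓ x := (lam x.1, lam x.2)
  ℓ_lam a a' h := by
    have h1 := congrArg Prod.fst h
    have h2 := congrArg Prod.snd h
    dsimp only at h1 h2
    rw [List.map_cons, List.map_cons, List.map_nil, List.map_cons, List.map_cons, List.map_nil, h1,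
      h2]
  deg a := by
    rw [List.map_cons, List.map_cons, List.map_nil, List.sum_cons, List.sum_cons, List.sum_nil,
      add_zero]
    rfl
  k0 := (i0, i0)
  c0 := c0 * c0
  hc0 := mul_ne_zero h0.ne h0.ne
  hk0 := by rw [pairBasis_b, h0.val, map_smul, map_smul, map_one, map_one, smul_mul_smul_comm,
    one_mul]
  deg0 := by
    rw [List.map_cons, List.map_cons, List.map_nil, List.sum_cons, List.sum_cons, List.sum_nil,
      h0.deg, add_zero, add_zero]
  lam0 := by
    rw [List.map_cons, List.map_cons, List.map_nil, List.prod_cons, List.prod_cons, List.prod_nil,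
      h0.lam_eq, mul_one, mul_one]
  hP a := by
    obtain ⟨Q, hQ⟩ := exists_projector (frob Φ X 1) B.b lam hB a.1
    obtain ⟨Q', hQ'⟩ := exists_projector (frob Φ X 1) B.b lam hB a.2
    refine ⟨extOp W (aeval (frob Φ X 1) Q) (aeval (frob Φ X 1) Q'),
      Op.ext (aeval_mem_op (frob_mem_op Φ X 1) Q) (aeval_mem_op (frob_mem_op Φ X 1) Q'),
      fun i => ⟨fun h => ?_, fun h => ?_⟩⟩
    · rw [pairBasis_b, extOp_tmul, (hQ i.1).1 (congrArg Prod.fst h),
        (hQ' i.2).1 (congrArg Prod.snd h)]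
    · rw [pairBasis_b, extOp_tmul]
      by_cases h1 : lam i.1 = a.1
      · have h2 : lam i.2 ≠ a.2 := fun h2 => h (Prod.ext h1 h2)
        rw [(hQ' i.2).2 h2, map_zero, mul_zero]
      · rw [(hQ i.1).2 h1, map_zero, zero_mul]

/-- The operators between vectors with the same eigenvalue. -/
lemma exists_op [Finite ι] (hB : IsEig Φ B lam) (hd : ∀ l m, lam l = lam m → B.deg l = B.deg m)
    (hpair : ∀ l m, lam l * lam m = (((p ^ Φ.e X) ^ X.dim : ℕ) : W.K) →
      B.deg l + B.deg m = 2 * X.dim →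
      lw B [(fst X X, l), (snd X X, m)] ∈ algSpan W (X.prod X)) (l l' : ι) (h : lam l = lam l') :
    ∃ u ∈ (algSys W).Op X X, ∃ c : W.K, c ≠ 0 ∧ u (B.b l) = c • B.b l' := by
  obtain ⟨m, h1, h2, h3⟩ := exists_dual hB l
  have h4 := hpair m l' (by rw [← h, h3]) (by rw [← hd _ _ h, h2])
  rw [lw_cons, lw_cons, lw_nil, mul_one] at h4
  refine ⟨W.corr (xp W (B.b m) (B.b l')), Op.corr h4, _, ?_, corr_xp _ (PH.of (B.mem l'))
    (PH.of (B.mem l))⟩
  exact mul_ne_zero (pow_ne_zero _ (neg_ne_zero.2 one_ne_zero)) h1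

end Pool.Agent.R936
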