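import Pool.Agent.R936.UniDefs
import Pool.Agent.Y129.Gal2
import Pool.Agent.Y133.Half.Index

/-!
# Unipotent classes and open subvarieties
-/

open CategoryTheory AlgebraicGeometry Finset Filter Topology

open scoped ENNReal

universe u v w

namespace Pool.Agent.R936

open Pool.Agent.H914 Pool.Agent.H914.VarClass Pool.Agent.H914.VarClass.Obj
  Pool.Agent.H914.WeilCohomology Pool.Agent.H281R3.HT Pool.Agent.TH125.Gal Pool.Agent.Y129

section Alg

variable {K : Type*} [Field K] {A : Type*} [Ring A] [Algebra K A] {B : Type*} [Ring B] [Algebra K B]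
  {Γ : Type*} [Group Γ] {χ : Γ →* Kˣ} {gr : ℕ → Submodule K A} {ρ : Γ →* (A ≃ₐ[K] A)}
  {gr' : ℕ → Submodule K B} {τ : Γ →* (B ≃ₐ[K] B)}
  {Δ Δ' : Subgroup Γ} {i j m n : ℕ} {a b c : A}

lemma mem_uniStep_succ : c ∈ uniStep χ gr ρ Δ j (n + 1) ↔
    c ∈ gr (2 * j) ∧ ∀ g ∈ Δ, ρ g c - (χ g : K) ^ j • c ∈ uniStep χ gr ρ Δ j n := by
  rw [uniStep, Submodule.mem_inf, Submodule.mem_iInf]
  refine and_congr_right fun _ => ⟨fun h g hg => ?_, fun h g => ?_⟩
  · exact h ⟨g, hg⟩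
  · exact h g g.2

lemma uniStep_zero : uniStep χ gr ρ Δ j 0 = ⊥ := rfl

lemma uniStep_gr : uniStep χ gr ρ Δ j n ≤ gr (2 * j) := by
  cases n with
  | zero => exact bot_le
  | succ n => exact fun c hc => (mem_uniStep_succ.1 hc).1

lemma uniStep_le_succ : uniStep χ gr ρ Δ j n ≤ uniStep χ gr ρ Δ j (n + 1) := by
  induction n with
  | zero => exact bot_le
  | succ n ih =>
    intro c hc
    rw [mem_uniStep_succ] at hc ⊢
    exact ⟨hc.1, fun g hg => ih (hc.2 g hg)⟩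

lemma uniStep_mono (h : m ≤ n) : uniStep χ gr ρ Δ j m ≤ uniStep χ gr ρ Δ j n := by
  induction h with
  | refl => exact le_rfl
  | step _ ih => exact ih.trans uniStep_le_succ

lemma uniStep_anti (h : Δ ≤ Δ') : uniStep χ gr ρ Δ' j n ≤ uniStep χ gr ρ Δ j n := by
  induction n with
  | zero => exact le_rfl
  | succ n ih =>
    intro c hc
    rw [mem_uniStep_succ] at hc ⊢
    exact ⟨hc.1, fun g hg => ih (hc.2 g (h hg))⟩

lemma uniStep_stable {g : Γ} (hg : g ∈ Δ) (hc : c ∈ uniStep χ gr ρ Δ j n) :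
    ρ g c ∈ uniStep χ gr ρ Δ j n := by
  cases n with
  | zero =>
    rw [uniStep_zero, Submodule.mem_bot] at hc ⊢
    rw [hc, map_zero]
  | succ n =>
    have h1 := uniStep_le_succ ((mem_uniStep_succ.1 hc).2 g hg)
    have h2 := add_mem h1 (Submodule.smul_mem _ ((χ g : K) ^ j) hc)
    rwa [sub_add_cancel] at h2

lemma uniStep_mul (hmul : ∀ {i j : ℕ} {a b : A}, a ∈ gr i → b ∈ gr j → a * b ∈ gr (i + j)) :
    ∀ (N m n : ℕ), m + n = N → ∀ {a b : A}, a ∈ uniStep χ gr ρ Δ i m → b ∈ uniStep χ gr ρ Δ j n →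
      a * b ∈ uniStep χ gr ρ Δ (i + j) N := by
  intro N
  induction N with
  | zero =>
    intro m n hmn a b ha hb
    obtain rfl : m = 0 := by omega
    rw [uniStep_zero, Submodule.mem_bot] at ha ⊢
    rw [ha, zero_mul]
  | succ N ih =>
    intro m n hmn a b ha hb
    rcases m with _ | m
    · rw [uniStep_zero, Submodule.mem_bot] at ha
      rw [ha, zero_mul]
      exact zero_mem _
    rcases n with _ | n
    · rw [uniStep_zero, Submodule.mem_bot] at hb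
      rw [hb, mul_zero]
      exact zero_mem _
    rw [mem_uniStep_succ] at ha
    have hb' := mem_uniStep_succ.1 hb
    have ha'' := mem_uniStep_succ.2 ha
    rw [mem_uniStep_succ]
    refine ⟨?_, fun g hg => ?_⟩
    · have := hmul ha.1 hb'.1
      rwa [show 2 * i + 2 * j = 2 * (i + j) by ring] at this
    · have h1 : ρ g (a * b) - (χ g : K) ^ (i + j) • (a * b) =
          (ρ g a - (χ g : K) ^ i • a) * ρ g b +
            (χ g : K) ^ i • (a * (ρ g b - (χ g : K) ^ j • b)) := by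
        rw [map_mul, sub_mul, mul_sub, smul_sub, smul_mul_assoc, mul_smul_comm, smul_smul,
          ← pow_add]
        abel
      rw [h1]
      exact add_mem (ih m (n + 1) (by omega) (ha.2 g hg) (uniStep_stable hg hb))
        (Submodule.smul_mem _ _ (ih (m + 1) n (by omega) ha'' (hb'.2 g hg)))

lemma uniStep_map {f : A →ₗ[K] B} (hf : ∀ g ∈ Δ, ∀ a, τ g (f a) = f (ρ g a))
    (hgr : ∀ a ∈ gr (2 * j), f a ∈ gr' (2 * j)) (ha : a ∈ uniStep χ gr ρ Δ j n) :
    f a ∈ uniStep χ gr' τ Δ j n := by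
  induction n generalizing a with
  | zero =>
    rw [uniStep_zero, Submodule.mem_bot] at ha ⊢
    rw [ha, map_zero]
  | succ n ih =>
    rw [mem_uniStep_succ] at ha ⊢
    refine ⟨hgr a ha.1, fun g hg => ?_⟩
    have h1 := ih (ha.2 g hg)
    rw [map_sub, map_smul, ← hf g hg] at h1
    exact h1

/-- Maps which shift the degrees. -/
lemma uniStep_push {f : A →ₗ[K] B} {d e l : ℕ} (hl : l + d = j + e)
    (hf : ∀ g ∈ Δ, ∀ a, ((χ g : K) ^ d) • τ g (f a) = ((χ g : K) ^ e) • f (ρ g a))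
    (hgr : ∀ a ∈ gr (2 * j), f a ∈ gr' (2 * l)) (ha : a ∈ uniStep χ gr ρ Δ j n) :
    f a ∈ uniStep χ gr' τ Δ l n := by
  induction n generalizing a with
  | zero =>
    rw [uniStep_zero, Submodule.mem_bot] at ha ⊢
    rw [ha, map_zero]
  | succ n ih =>
    rw [mem_uniStep_succ] at ha ⊢
    refine ⟨hgr a ha.1, fun g hg => ?_⟩
    have h1 := Submodule.smul_mem _ ((χ g : K) ^ e) (ih (ha.2 g hg))
    rw [map_sub, map_smul, smul_sub, ← hf g hg, smul_smul, ← pow_add, add_comm e j, ← hl,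
      add_comm l d, pow_add, mul_smul, ← smul_sub] at h1
    have h5 : ((χ g : K) ^ d) ≠ 0 := pow_ne_zero _ (Units.ne_zero _)
    have h2 := Submodule.smul_mem _ ((χ g : K) ^ d)⁻¹ h1
    rwa [smul_smul, inv_mul_cancel₀ h5, one_smul] at h2

/-- The space of unipotent classes. -/
def uniM (χ : Γ →* Kˣ) (gr : ℕ → Submodule K A) (ρ : Γ →* (A ≃ₐ[K] A)) (j : ℕ) :
    Submodule K A where
  carrier := {c | IsUni χ gr ρ j c}
  add_mem' := by
    rintro a b ⟨Δ, hΔ, m, ha⟩ ⟨Δ', hΔ', n, hb⟩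
    refine ⟨Δ ⊓ Δ', inferInstance, max m n, add_mem ?_ ?_⟩
    · exact uniStep_mono (le_max_left m n) (uniStep_anti inf_le_left ha)
    · exact uniStep_mono (le_max_right m n) (uniStep_anti inf_le_right hb)
  zero_mem' := ⟨⊤, inferInstance, 0, zero_mem _⟩
  smul_mem' := by
    rintro r a ⟨Δ, hΔ, m, ha⟩
    exact ⟨Δ, hΔ, m, Submodule.smul_mem _ _ ha⟩

lemma mem_uniM : c ∈ uniM χ gr ρ j ↔ IsUni χ gr ρ j c := Iff.rfl

lemma uniM_gr : uniM χ gr ρ j ≤ gr (2 * j) := by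
  rintro c ⟨Δ, _, n, hc⟩
  exact uniStep_gr hc

lemma IsUni.of_fixed (hc : c ∈ gr (2 * j)) (h : ∃ Δ : Subgroup Γ, Δ.FiniteIndex ∧
    ∀ g ∈ Δ, ρ g c = (χ g : K) ^ j • c) : IsUni χ gr ρ j c := by
  obtain ⟨Δ, hΔ, h⟩ := h
  refine ⟨Δ, hΔ, 1, mem_uniStep_succ.2 ⟨hc, fun g hg => ?_⟩⟩
  rw [h g hg, sub_self]
  exact zero_mem _

lemma IsUni.mul (hmul : ∀ {i j : ℕ} {a b : A}, a ∈ gr i → b ∈ gr j → a * b ∈ gr (i + j))
    (ha : IsUni χ gr ρ i a) (hb : IsUni χ gr ρ j b) : IsUni χ gr ρ (i + j) (a * b) := by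
  obtain ⟨Δ, hΔ, m, ha⟩ := ha
  obtain ⟨Δ', hΔ', n, hb⟩ := hb
  exact ⟨Δ ⊓ Δ', inferInstance, m + n, uniStep_mul hmul (m + n) m n rfl
    (uniStep_anti inf_le_left ha) (uniStep_anti inf_le_right hb)⟩

/-- A finite-dimensional space of fixed classes is fixed by one subgroup of finite index. -/
lemma exists_fix {M : Submodule K A} [Module.Finite K M]
    (hM : ∀ c ∈ M, ∃ Δ : Subgroup Γ, Δ.FiniteIndex ∧ ∀ g ∈ Δ, ρ g c = (χ g : K) ^ j • c) :
    ∃ Δ : Subgroup Γ, Δ.FiniteIndex ∧ ∀ g ∈ Δ, ∀ c ∈ M, ρ g c = (χ g : K) ^ j • c := by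
  classical
  obtain ⟨S, hS⟩ := (Submodule.fg_iff_finiteDimensional M).2 inferInstance
  have hSM : ∀ c ∈ S, c ∈ M := fun c hc => hS ▸ Submodule.subset_span hc
  have key : ∀ T : Finset A, (∀ c ∈ T, c ∈ M) → ∃ Δ : Subgroup Γ, Δ.FiniteIndex ∧
      ∀ g ∈ Δ, ∀ c ∈ T, ρ g c = (χ g : K) ^ j • c := by
    intro T
    induction T using Finset.induction_on with
    | empty => intro _; exact ⟨⊤, inferInstance, fun g _ c hc => absurd hc (Finset.notMem_empty c)⟩
    | insert a T _ ih =>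
      intro hT
      obtain ⟨Δ, hΔ, h⟩ := ih fun c hc => hT c (Finset.mem_insert_of_mem hc)
      obtain ⟨Δ', hΔ', h'⟩ := hM a (hT a (Finset.mem_insert_self a T))
      refine ⟨Δ ⊓ Δ', inferInstance, fun g hg c hc => ?_⟩
      rcases Finset.mem_insert.1 hc with rfl | hc
      · exact h' g hg.2
      · exact h g hg.1 c hc
  obtain ⟨Δ, hΔ, h⟩ := key S hSM
  refine ⟨Δ, hΔ, fun g hg c hc => ?_⟩
  rw [← hS] at hc
  induction hc using Submodule.span_induction with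
  | mem c hc => exact h g hg c hc
  | zero => rw [map_zero, smul_zero]
  | add a b _ _ ha hb => rw [map_add, ha, hb, smul_add]
  | smul r a _ ha => rw [map_smul, ha, smul_comm]

/-- A class which is fixed modulo a finite-dimensional space of fixed classes is unipotent. -/
lemma IsUni.of_mod {M : Submodule K A} [Module.Finite K M] (hMgr : M ≤ gr (2 * j))
    (hM : ∀ c ∈ M, ∃ Δ : Subgroup Γ, Δ.FiniteIndex ∧ ∀ g ∈ Δ, ρ g c = (χ g : K) ^ j • c)
    (hc : c ∈ gr (2 * j)) (h : FixedMod χ ρ j M c) : IsUni χ gr ρ j c := by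
  obtain ⟨Δ, hΔ, h⟩ := h
  obtain ⟨Δ', hΔ', h'⟩ := exists_fix hM
  refine ⟨Δ ⊓ Δ', inferInstance, 2, mem_uniStep_succ.2 ⟨hc, fun g hg =>
    mem_uniStep_succ.2 ⟨hMgr (h g hg.1), fun g' hg' => ?_⟩⟩⟩
  rw [h' g' hg'.2 _ (h g hg.1), sub_self]
  exact zero_mem _

end Alg

end Pool.Agent.R936
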