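import Pool.Agent.Y129.GDefs

/-!
# Classes on open subvarieties fixed by open subgroups: definitions
-/

open CategoryTheory AlgebraicGeometry Finset

universe u v w

namespace Pool.Agent.R936

section Alg

variable {K : Type*} [Field K] {A : Type*} [Ring A] [Algebra K A] {Γ : Type*} [Group Γ]

/-- The elements `c` of `gr (2 * j)` for which all products of `n` elements of the form
`ρ g - χ g ^ j`, with `g` in the subgroup `Δ`, are zero on `c` (for `n = 1` the elements with
`ρ g c = χ g ^ j • c` for all `g` in `Δ`). -/
def uniStep (χ : Γ →* Kˣ) (gr : ℕ → Submodule K A) (ρ : Γ →* (A ≃ₐ[K] A)) (Δ : Subgroup Γ)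
    (j : ℕ) : ℕ → Submodule K A
  | 0 => ⊥
  | n + 1 => gr (2 * j) ⊓ ⨅ g : Δ, (uniStep χ gr ρ Δ j n).comap
      ((ρ g).toLinearMap - ((χ g : K) ^ j) • LinearMap.id)

/-- The unipotent classes of codimension `j`: the elements of `gr (2 * j)` on which some subgroup of
finite index acts unipotently, up to the twist by `χ ^ j`. -/
def IsUni (χ : Γ →* Kˣ) (gr : ℕ → Submodule K A) (ρ : Γ →* (A ≃ₐ[K] A)) (j : ℕ) (c : A) : Prop :=
  ∃ Δ : Subgroup Γ, Δ.FiniteIndex ∧ ∃ n, c ∈ uniStep χ gr ρ Δ j n

/-- The element `c` is multiplied by `χ g ^ j` by all `g` in a subgroup of finite index, modulo the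
subspace `M`. -/
def FixedMod (χ : Γ →* Kˣ) (ρ : Γ →* (A ≃ₐ[K] A)) (j : ℕ) (M : Submodule K A) (c : A) : Prop :=
  ∃ Δ : Subgroup Γ, Δ.FiniteIndex ∧ ∀ g ∈ Δ, ρ g c - (χ g : K) ^ j • c ∈ M

/-- The elements of `gr (2 * j)` which are multiplied by `χ g ^ j` by all `g` in a subgroup of
finite index, modulo the span of `S`, are in the span of `C`. -/
def TateMod (χ : Γ →* Kˣ) (gr : ℕ → Submodule K A) (ρ : Γ →* (A ≃ₐ[K] A)) (j : ℕ) (S C : Set A) :
    Prop :=
  ∀ c ∈ gr (2 * j), FixedMod χ ρ j (Submodule.span K S) c → c ∈ Submodule.span K C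

end Alg

open Pool.Agent.H914 Pool.Agent.H914.VarClass Pool.Agent.H914.VarClass.Obj
  Pool.Agent.H914.WeilCohomology Pool.Agent.H281R3.HT Pool.Agent.TH125.Gal Pool.Agent.Y129

variable {k : Type u} [Field k] {𝒱 : VarClass k} {ops : CycleOps 𝒱}

/-- The complement of the open subvariety `U` of `Y` has codimension at least `j`. -/
def SmallComplement (Y : 𝒱.Obj) (j : ℕ) (U : Y.V.X.Opens) : Prop :=
  ∀ x : Y.V.X, x ∉ U → (j : ℕ∞) ≤ Order.coheight x

/-- The prime cycle given by a point, that is, its closure. -/
noncomputable def pt (Y : 𝒱.Obj) (x : Y.V.X) : Y.Cycles := (Finsupp.single x (1 : ℚ) : Y.V.X →₀ ℚ)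

/-- The classes of the closures of the points `x` of codimension `j` of `Y` which are not in the open
subvariety `U`. If the complement of `U` has codimension at least `j`, these are the irreducible
components of codimension `j` of the complement, and the kernel of the restriction map from
`H^(2 j)(Y)` to `H^(2 j)(U)` is spanned by their classes. -/
def removedClasses (W : WeilCohomology.{u, v} ops) (Y : 𝒱.Obj) (j : ℕ) (U : Y.V.X.Opens) :
    Set (W.H Y) :=
  {c | ∃ x : Y.V.X, x ∉ U ∧ Order.coheight x = j ∧ W.cl Y (pt Y x) = c}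

/-- A group `Γ` with a character `χ` which acts on the cohomology algebras of all powers of `X` like the
Galois group of a finitely generated field over which `X` is defined (`χ` is the action on the Tate
twists). -/
structure GaloisPowers (W : WeilCohomology.{u, v} ops) (X : 𝒱.Obj) where
  /-- the group -/
  Γ : Type w
  [group : Group Γ]
  /-- the character -/
  χ : Γ →* W.Kˣ
  /-- the action on the cohomology of the product of `n + 1` copies of `X` -/
  ρ : ∀ n, Γ →* (W.H (pw X n) ≃ₐ[W.K] W.H (pw X n))
  isAction : PowerAction W X χ ρ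

attribute [instance] GaloisPowers.group

variable {W : WeilCohomology.{u, v} ops} {X : 𝒱.Obj}

/-- The unipotent classes of codimension `j` on the product of `n + 1` copies of `X`. -/
def UniClass (G : GaloisPowers.{u, v, w} W X) (n j : ℕ) (c : W.H (pw X n)) : Prop :=
  IsUni G.χ (W.gr (pw X n)) (G.ρ n) j c

/-- The dimension of the space of the unipotent classes of all codimensions on the product of
`n + 1` copies of `X`. -/
noncomputable def uniDim (G : GaloisPowers.{u, v, w} W X) (n : ℕ) : ℕ :=
  Set.finrank W.K {c | ∃ j, UniClass G n j c}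

/-- The Tate conjecture in codimension `j` for the open subvariety `U` of the product of `n + 1` copies
of `X`, whose complement has codimension at least `j`: if the restriction to `U` of the class `c` in
`H^(2 j)(X^(n + 1))` is multiplied by `χ g ^ j` by all `g` in a subgroup of finite index, then `c`
is a linear combination of classes of algebraic cycles. -/
def OpenTate (G : GaloisPowers.{u, v, w} W X) (n j : ℕ) (U : (pw X n).V.X.Opens) : Prop :=
  TateMod G.χ (W.gr (pw X n)) (G.ρ n) j (removedClasses W (pw X n) j U) (algClasses W (pw X n) j)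

/-- The Tate conjecture in codimension `j`, for all `j` and all open subvarieties `U` of the product
of `n + 1` copies of `X` whose complement has codimension at least `j`. -/
def TateOpens (G : GaloisPowers.{u, v, w} W X) (n : ℕ) : Prop :=
  ∀ (j : ℕ) (U : (pw X n).V.X.Opens), SmallComplement (pw X n) j U → OpenTate G n j U

/-- There are `r` unipotent classes on powers of `X`, where `r + 1 ≤ N`, such that all unipotent
classes on all powers of `X` are linear combinations of classes of algebraic cycles and of images of
these `r` classes under algebraic correspondences. -/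
def UniGenerated (G : GaloisPowers.{u, v, w} W X) (N : ℕ∞) : Prop :=
  ∃ (r : ℕ) (c : Fin r → Σ m, W.H (pw X m)), (r : ℕ∞) + 1 ≤ N ∧
    (∀ i, ∃ j, UniClass G (c i).1 j (c i).2) ∧ ∀ n j z, UniClass G n j z → z ∈ genBy W X c n

end Pool.Agent.R936
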